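import Pool.Agent.H128.Rg.Defs

set_option autoImplicit false
set_option linter.unusedSectionVars false

/-! Rigidity of vector configurations: generic conditions. -/

namespace Pool.Agent.H128.Rg

variable {V : Type} [Fintype V] [DecidableEq V] {K : Type} [Field K] {m n : ℕ}

lemma Gen.mono {σ : Type} {A B : (σ → K) → Prop} (h : Gen A) (hAB : ∀ c, A c → B c) : Gen B := by
  obtain ⟨f, hf, h⟩ := h
  exact ⟨f, hf, fun c hc => hAB c (h c hc)⟩

lemma Gen.and {σ : Type} {A B : (σ → K) → Prop} (hA : Gen A) (hB : Gen B) :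
    Gen fun c => A c ∧ B c := by
  obtain ⟨f, hf, h⟩ := hA
  obtain ⟨g, hg, h'⟩ := hB
  refine ⟨f * g, mul_ne_zero hf hg, fun c hc => ?_⟩
  rw [map_mul] at hc
  exact ⟨h c (left_ne_zero_of_mul hc), h' c (right_ne_zero_of_mul hc)⟩

lemma Gen.true {σ : Type} {A : (σ → K) → Prop} (h : ∀ c, A c) : Gen A :=
  ⟨1, one_ne_zero, fun c _ => h c⟩

lemma Gen.all {σ ι : Type} (I : Finset ι) {A : ι → (σ → K) → Prop} (h : ∀ i ∈ I, Gen (A i)) :
    Gen fun c => ∀ i ∈ I, A i c := by
  classical
  induction I using Finset.induction_on with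
  | empty => exact Gen.true fun c i hi => absurd hi (Finset.notMem_empty i)
  | insert i I hi ih =>
    have h1 := (h i (Finset.mem_insert_self i I)).and (ih fun j hj => h j (Finset.mem_insert_of_mem hj))
    refine h1.mono fun c hc j hj => ?_
    rcases Finset.mem_insert.1 hj with rfl | hj
    · exact hc.1
    · exact hc.2 j hj

lemma Gen.exists [Infinite K] {σ : Type} {A : (σ → K) → Prop} (h : Gen A) : ∃ c, A c := by
  obtain ⟨f, hf, h⟩ := h
  by_contra hc
  refine hf (MvPolynomial.funext fun c => ?_)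
  rw [map_zero]
  by_contra h'
  exact hc ⟨c, h c h'⟩

/-- a determinant of generic vectors is not zero -/
lemma gen_det (e : Fin m → V) (he : Function.Injective e) :
    Gen (K := K) fun c : Fin m × V → K => (Matrix.of fun i j => c (j, e i)).det ≠ 0 := by
  refine ⟨(Matrix.of fun i j => (MvPolynomial.X (j, e i) : MvPolynomial (Fin m × V) K)).det, ?_, ?_⟩
  · intro h
    have h1 := congrArg (MvPolynomial.eval fun q : Fin m × V => if q.2 = e q.1 then (1 : K) else 0) h
    rw [RingHom.map_det, map_zero] at h1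
    have h2 : (MvPolynomial.eval fun q : Fin m × V => if q.2 = e q.1 then (1 : K) else 0).mapMatrix
        (Matrix.of fun i j => (MvPolynomial.X (j, e i) : MvPolynomial (Fin m × V) K)) = 1 := by
      ext i j
      rw [RingHom.mapMatrix_apply, Matrix.map_apply, Matrix.of_apply, MvPolynomial.eval_X, Matrix.one_apply]
      by_cases hij : i = j
      · rw [if_pos hij, if_pos (by rw [hij])]
      · rw [if_neg hij, if_neg]
        intro h
        exact hij (he h)
    rw [h2, Matrix.det_one] at h1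
    exact one_ne_zero h1
  · intro c hc
    rw [RingHom.map_det] at hc
    convert hc using 2
    ext i j
    rw [RingHom.mapMatrix_apply, Matrix.map_apply, Matrix.of_apply, Matrix.of_apply, MvPolynomial.eval_X]

/-- rigidity depends only on the vectors of the vertices -/
lemma Rigid.congr {S : Finset (Finset V)} (hd : ∀ u v, ({u, v} : Finset V) ∈ S → ({u} : Finset V) ∈ S)
    {P P' : V → Fin m → K} (h : ∀ u, ({u} : Finset V) ∈ S → P u = P' u) (hR : Rigid S P) : Rigid S P' := by
  intro z hz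
  obtain ⟨X, hX, hX'⟩ := hR z fun u v huv => by
    rw [h u (hd u v huv), h v (hd v u (by rw [Finset.pair_comm]; exact huv))]
    exact hz u v huv
  exact ⟨X, hX, fun v hv => by rw [hX' v hv, h v hv]⟩

/-- gauge fixing -/
lemma gauge (Q : Fin m → Fin m → K) (hQ : (Matrix.of Q).det ≠ 0) (y : Fin m → Fin m → K) :
    ∃ X : Matrix (Fin m) (Fin m) K, X.transpose = -X ∧
      ∀ i j, i < j → ∑ k, (y j k - X.mulVec (Q j) k) * Q i k = 0 := by
  obtain ⟨Y, hY⟩ : ∃ Y : Matrix (Fin m) (Fin m) K, ∀ i j, Y i j =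
    if i < j then ∑ k, y j k * Q i k else if j < i then - ∑ k, y i k * Q j k else 0 := ⟨_, fun _ _ => rfl⟩
  have hYs : Y.transpose = -Y := by
    ext i j
    rw [Matrix.transpose_apply, Matrix.neg_apply, hY, hY]
    rcases lt_trichotomy i j with h | h | h
    · rw [if_neg h.asymm, if_pos h, if_pos h]
    · rw [h, if_neg (lt_irrefl j), if_neg (lt_irrefl j), neg_zero]
    · rw [if_pos h, if_neg h.asymm, if_pos h, neg_neg]
  set Qm : Matrix (Fin m) (Fin m) K := Matrix.of Q with hQm
  have hu : IsUnit Qm.det := isUnit_iff_ne_zero.2 hQ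
  refine ⟨Qm⁻¹ * Y * (Qm⁻¹).transpose, ?_, ?_⟩
  · rw [Matrix.transpose_mul, Matrix.transpose_mul, Matrix.transpose_transpose, hYs, Matrix.neg_mul,
      Matrix.mul_neg, Matrix.mul_assoc]
  · intro i j hij
    have h1 : Qm * (Qm⁻¹ * Y * (Qm⁻¹).transpose) * Qm.transpose = Y := by
      rw [Matrix.mul_assoc, Matrix.mul_assoc (Qm⁻¹ * Y), ← Matrix.transpose_mul, Matrix.mul_nonsing_inv _ hu,
        Matrix.transpose_one, Matrix.mul_one, ← Matrix.mul_assoc, Matrix.mul_nonsing_inv _ hu, Matrix.one_mul]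
    have h2 : (Qm * (Qm⁻¹ * Y * (Qm⁻¹).transpose) * Qm.transpose) i j =
        ∑ k, (Qm⁻¹ * Y * (Qm⁻¹).transpose).mulVec (Q j) k * Q i k := by
      rw [Matrix.mul_assoc, Matrix.mul_apply]
      refine Finset.sum_congr rfl fun k _ => ?_
      rw [Matrix.mul_apply, Matrix.mulVec, dotProduct, mul_comm]
      rfl
    rw [h1, hY, if_pos hij] at h2
    simp only [sub_mul, Finset.sum_sub_distrib]
    rw [← h2, sub_self]

/-- `z = X P` is a motion -/
lemma skew_motion {X : Matrix (Fin m) (Fin m) K} (hX : X.transpose = -X) (x y : Fin m → K) :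
    ∑ i, (X.mulVec x i * y i + X.mulVec y i * x i) = 0 := by
  rw [Finset.sum_add_distrib]
  have h1 : ∑ i, X.mulVec x i * y i = dotProduct (X.mulVec x) y := rfl
  have h2 : ∑ i, X.mulVec y i * x i = dotProduct (X.mulVec y) x := rfl
  rw [h1, h2, dotProduct_comm (X.mulVec y) x, Matrix.dotProduct_mulVec, ← Matrix.mulVec_transpose, hX,
    Matrix.neg_mulVec, neg_dotProduct]
  ring

end Pool.Agent.H128.Rg
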