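import Pool.Agent.H128.Rg.Defs

set_option autoImplicit false
set_option linter.unusedSectionVars false

namespace Pool.Agent.H646.RgW1

open Pool.Agent.H128.Rg

variable {K : Type} [Field K] {n d : ℕ}

theorem coeff_mon {Δ : Finset (Finset (Fin n))} (hΔ : Down Δ) {r : MvPolynomial (Fin n) K}
    (hr : r ∈ Ideal.span ((fun σ : Finset (Fin n) =>
      ∏ i ∈ σ, (MvPolynomial.X i : MvPolynomial (Fin n) K)) '' {σ : Finset (Fin n) | σ ∉ Δ})) :
    ∀ μ : Fin n →₀ ℕ, μ.support ∈ Δ → MvPolynomial.coeff μ r = 0 := by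
  induction hr using Submodule.span_induction with
  | mem x hx =>
    obtain ⟨σ, hσ, rfl⟩ := hx
    intro μ hμ
    have e : (∏ i ∈ σ, (MvPolynomial.X i : MvPolynomial (Fin n) K)) =
        MvPolynomial.monomial (∑ i ∈ σ, Finsupp.single i 1) 1 := by
      rw [MvPolynomial.monomial_sum_index, map_one, one_mul]
      rfl
    simp only
    rw [e, MvPolynomial.coeff_monomial, if_neg]
    intro h
    apply hσ
    have : μ.support = σ := by
      rw [← h]
      ext j
      rw [Finsupp.mem_support_iff, Finsupp.finsetSum_apply]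
      simp only [Finsupp.single_apply]
      rw [Finset.sum_ite_eq']
      simp
    rwa [← this]
  | zero => intro μ _; simp
  | add x y _ _ hx hy => intro μ hμ; rw [MvPolynomial.coeff_add, hx μ hμ, hy μ hμ, add_zero]
  | smul a x _ hx =>
    intro μ hμ
    rw [smul_eq_mul, MvPolynomial.coeff_mul]
    apply Finset.sum_eq_zero
    intro p hp
    rw [Finset.HasAntidiagonal.mem_antidiagonal] at hp
    have : p.2.support ∈ Δ := by
      apply hΔ _ hμ
      intro j hj
      rw [Finsupp.mem_support_iff] at hj ⊢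
      have := DFunLike.congr_fun hp j
      rw [Finsupp.add_apply] at this
      omega
    rw [hx _ this, mul_zero]

theorem exists_g {θ : Fin (d + 2) → MvPolynomial (Fin n) K} {s : MvPolynomial (Fin n) K}
    (hs : s ∈ Ideal.span (θ '' {k : Fin (d + 2) | (k : ℕ) ≤ d})) :
    ∃ g : Fin (d + 2) → MvPolynomial (Fin n) K, g (Fin.last (d + 1)) = 0 ∧ s = ∑ k, g k * θ k := by
  induction hs using Submodule.span_induction with
  | mem x hx =>
    obtain ⟨k, hk, rfl⟩ := hx
    refine ⟨Pi.single k 1, ?_, ?_⟩
    · rw [Pi.single_eq_of_ne]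
      intro h
      rw [← h] at hk
      simp at hk
    · rw [Finset.sum_eq_single k]
      · simp
      · intro j _ hj
        rw [Pi.single_eq_of_ne hj, zero_mul]
      · simp
  | zero => exact ⟨0, rfl, by simp⟩
  | add x y _ _ hx hy =>
    obtain ⟨g, h1, h2⟩ := hx
    obtain ⟨g', h1', h2'⟩ := hy
    refine ⟨g + g', by rw [Pi.add_apply, h1, h1', add_zero], ?_⟩
    rw [h2, h2', ← Finset.sum_add_distrib]
    apply Finset.sum_congr rfl
    intro k _
    rw [Pi.add_apply, add_mul]
  | smul a x _ hx =>
    obtain ⟨g, h1, h2⟩ := hx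
    refine ⟨fun k => a * g k, by simp [h1], ?_⟩
    rw [h2, smul_eq_mul, Finset.mul_sum]
    apply Finset.sum_congr rfl
    intro k _
    ring

theorem coeff_X (p : MvPolynomial (Fin n) K) (u v i : Fin n) :
    (if u = v then (2 : K) else 1) *
      MvPolynomial.coeff (Finsupp.single u 1 + Finsupp.single v 1) (p * MvPolynomial.X i) =
    (if i = u then MvPolynomial.coeff (Finsupp.single v 1) p else 0) +
      (if i = v then MvPolynomial.coeff (Finsupp.single u 1) p else 0) := by
  by_cases h1 : i = u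
  · subst h1
    rw [add_comm (Finsupp.single i 1), MvPolynomial.coeff_mul_X]
    by_cases h2 : i = v
    · subst h2
      simp only [if_true]
      ring
    · rw [if_neg h2, if_neg h2]
      simp
  · by_cases h2 : i = v
    · subst h2
      rw [MvPolynomial.coeff_mul_X, if_neg (fun h => h1 h.symm), if_neg h1]
      simp
    · have hni : i ∉ (Finsupp.single u 1 + Finsupp.single v 1 : Fin n →₀ ℕ).support := by
        rw [Finsupp.notMem_support_iff, Finsupp.add_apply,
          Finsupp.single_eq_of_ne h1, Finsupp.single_eq_of_ne h2, add_zero]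
      rw [MvPolynomial.coeff_mul_X', if_neg hni, if_neg h1, if_neg h2]
      simp

theorem coeff_th (p : MvPolynomial (Fin n) K) (c : Fin n → K) (u v : Fin n) :
    (if u = v then (2 : K) else 1) *
      MvPolynomial.coeff (Finsupp.single u 1 + Finsupp.single v 1)
        (p * ∑ i : Fin n, MvPolynomial.C (c i) * MvPolynomial.X i) =
    MvPolynomial.coeff (Finsupp.single v 1) p * c u +
      MvPolynomial.coeff (Finsupp.single u 1) p * c v := by
  rw [Finset.mul_sum, MvPolynomial.coeff_sum, Finset.mul_sum]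
  have : ∀ i ∈ Finset.univ, (if u = v then (2 : K) else 1) *
      MvPolynomial.coeff (Finsupp.single u 1 + Finsupp.single v 1)
        (p * (MvPolynomial.C (c i) * MvPolynomial.X i)) =
      c i * ((if i = u then MvPolynomial.coeff (Finsupp.single v 1) p else 0) +
      (if i = v then MvPolynomial.coeff (Finsupp.single u 1) p else 0)) := by
    intro i _
    rw [← coeff_X, mul_left_comm p, MvPolynomial.coeff_C_mul]
    ring
  rw [Finset.sum_congr rfl this]
  simp only [mul_add, Finset.sum_add_distrib, mul_ite, mul_zero, Finset.sum_ite_eq',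
    Finset.mem_univ, if_true]
  ring

theorem lin_eq (ℓ : MvPolynomial (Fin n) K) (hℓ : ℓ.IsHomogeneous 1) :
    ℓ = ∑ v : Fin n, MvPolynomial.C (MvPolynomial.coeff (Finsupp.single v 1) ℓ) * MvPolynomial.X v := by
  ext μ
  rw [MvPolynomial.coeff_sum]
  simp only [MvPolynomial.coeff_C_mul, MvPolynomial.coeff_X]
  by_cases h : ∃ v, μ = Finsupp.single v 1
  · obtain ⟨v, rfl⟩ := h
    rw [Finset.sum_eq_single v]
    · simp
    · intro w _ hw
      rw [if_neg, mul_zero]
      intro h
      exact hw ((Finsupp.single_left_inj one_ne_zero).1 h)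
    · simp
  · rw [Finset.sum_eq_zero]
    · apply hℓ.coeff_eq_zero
      intro hd
      apply h
      exact (Finsupp.sum_eq_one_iff μ).1 hd
    · intro v _
      rw [if_neg, mul_zero]
      intro hv
      exact h ⟨v, hv.symm⟩

theorem alg [CharZero K] (Δ : Finset (Finset (Fin n))) (hΔ : Down Δ)
    (hv : ∀ i : Fin n, ({i} : Finset (Fin n)) ∈ Δ)
    (c : Fin (d + 2) × Fin n → K) (hR : Rigid Δ (fun v (k : Fin (d + 2)) => c (k, v)))
    (ℓ : MvPolynomial (Fin n) K) (hℓ : ℓ.IsHomogeneous 1)
    (h : (∑ i : Fin n, MvPolynomial.C (c (Fin.last (d + 1), i)) * MvPolynomial.X i) * ℓ ∈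
      (Ideal.span ((fun σ : Finset (Fin n) => ∏ i ∈ σ, (MvPolynomial.X i : MvPolynomial (Fin n) K)) ''
                {σ : Finset (Fin n) | σ ∉ Δ}) ⊔
             Ideal.span ((fun k : Fin (d + 2) => ∑ i : Fin n, MvPolynomial.C (c (k, i)) * MvPolynomial.X i) ''
                {k : Fin (d + 2) | (k : ℕ) ≤ d}))) :
    ℓ ∈ Ideal.span ((fun k : Fin (d + 2) => ∑ i : Fin n, MvPolynomial.C (c (k, i)) * MvPolynomial.X i) ''
                {k : Fin (d + 2) | (k : ℕ) ≤ d}) := by
  obtain ⟨r, hr, s, hs, hrs⟩ := Submodule.mem_sup.1 h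
  obtain ⟨g, hg0, hg⟩ := exists_g hs
  obtain ⟨z, hz⟩ : ∃ z : Fin n → Fin (d + 2) → K, z = fun v k =>
      if k = Fin.last (d + 1) then MvPolynomial.coeff (Finsupp.single v 1) ℓ
      else - MvPolynomial.coeff (Finsupp.single v 1) (g k) := ⟨_, rfl⟩
  have hzM : Motion Δ (fun v (k : Fin (d + 2)) => c (k, v)) z := by
    intro u v huv
    have hsup : (Finsupp.single u 1 + Finsupp.single v 1 : Fin n →₀ ℕ).support ∈ Δ := by
      apply hΔ _ huv
      intro j hj
      by_contra hn
      rw [Finset.mem_insert, Finset.mem_singleton, not_or] at hn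
      rw [Finsupp.mem_support_iff, Finsupp.add_apply, Finsupp.single_eq_of_ne hn.1,
        Finsupp.single_eq_of_ne hn.2] at hj
      exact hj rfl
    have h1 := coeff_mon hΔ hr _ hsup
    have h2 := congrArg (fun p => (if u = v then (2 : K) else 1) *
      MvPolynomial.coeff (Finsupp.single u 1 + Finsupp.single v 1) p) hrs
    rw [MvPolynomial.coeff_add, h1, zero_add, mul_comm _ ℓ, coeff_th, hg, MvPolynomial.coeff_sum,
      Finset.mul_sum] at h2
    have h3 : ∀ k ∈ Finset.univ, (if u = v then (2 : K) else 1) *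
        MvPolynomial.coeff (Finsupp.single u 1 + Finsupp.single v 1)
          (g k * ∑ i : Fin n, MvPolynomial.C (c (k, i)) * MvPolynomial.X i) =
        MvPolynomial.coeff (Finsupp.single v 1) (g k) * c (k, u) +
          MvPolynomial.coeff (Finsupp.single u 1) (g k) * c (k, v) := by
      intro k _
      exact coeff_th (g k) (fun i => c (k, i)) u v
    rw [Finset.sum_congr rfl h3] at h2
    rw [Fin.sum_univ_castSucc, hg0] at h2
    simp only [MvPolynomial.coeff_zero, zero_mul, add_zero] at h2
    rw [Fin.sum_univ_castSucc]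
    have h4 : ∀ k ∈ Finset.univ, (z u (Fin.castSucc k) * c (Fin.castSucc k, v) +
        z v (Fin.castSucc k) * c (Fin.castSucc k, u)) =
        - (MvPolynomial.coeff (Finsupp.single v 1) (g (Fin.castSucc k)) * c (Fin.castSucc k, u) +
          MvPolynomial.coeff (Finsupp.single u 1) (g (Fin.castSucc k)) * c (Fin.castSucc k, v)) := by
      intro k _
      have hk : Fin.castSucc k ≠ Fin.last (d + 1) := (Fin.castSucc_lt_last k).ne
      simp only [hz, if_neg hk]
      ring
    rw [Finset.sum_congr rfl h4, Finset.sum_neg_distrib, h2]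
    simp only [hz, if_true]
    ring
  obtain ⟨X, hX, hXv⟩ := hR z hzM
  have hll : X (Fin.last (d + 1)) (Fin.last (d + 1)) = 0 := by
    have h5 : X (Fin.last (d + 1)) (Fin.last (d + 1)) = - X (Fin.last (d + 1)) (Fin.last (d + 1)) := by
      have := congrFun (congrFun hX (Fin.last (d + 1))) (Fin.last (d + 1))
      simpa using this
    have h6 : (2 : K) * X (Fin.last (d + 1)) (Fin.last (d + 1)) = 0 := by linear_combination h5
    rcases mul_eq_zero.1 h6 with h7 | h7
    · exact absurd h7 two_ne_zero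
    · exact h7
  have hl : ∀ v, MvPolynomial.coeff (Finsupp.single v 1) ℓ =
      ∑ k : Fin (d + 1), X (Fin.last (d + 1)) (Fin.castSucc k) * c (Fin.castSucc k, v) := by
    intro v
    have h8 := congrFun (hXv v (hv v)) (Fin.last (d + 1))
    rw [Matrix.mulVec, dotProduct, Fin.sum_univ_castSucc, hll, zero_mul, add_zero] at h8
    rw [← h8, hz]
    simp
  have hfin : ℓ = ∑ k : Fin (d + 1), MvPolynomial.C (X (Fin.last (d + 1)) (Fin.castSucc k)) *
      (∑ i : Fin n, MvPolynomial.C (c (Fin.castSucc k, i)) * MvPolynomial.X i) := by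
    conv_lhs => rw [lin_eq ℓ hℓ]
    simp only [hl, map_sum, map_mul, Finset.mul_sum, Finset.sum_mul]
    rw [Finset.sum_comm]
    apply Finset.sum_congr rfl
    intro k _
    apply Finset.sum_congr rfl
    intro i _
    ring
  rw [hfin]
  refine Ideal.sum_mem _ fun k _ => Ideal.mul_mem_left _ _ (Ideal.subset_span ?_)
  exact ⟨Fin.castSucc k, by
    show ((Fin.castSucc k : Fin (d + 2)) : ℕ) ≤ d
    rw [Fin.val_castSucc]
    omega, rfl⟩

end Pool.Agent.H646.RgW1
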