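import Pool.Agent.H128.Rg.Defs

set_option autoImplicit false
set_option linter.unusedSectionVars false

/-! W7: the cross-polytope of dimension `5` is rigid in `K^7`. Author: helper877. -/

namespace Pool.Agent.H877.Rg7

open Pool.Agent.H128.Rg

variable {K : Type} [Field K] [CharZero K]

/-- The vectors `e_0, ..., e_6`, `e_0 + e_1 + e_2`, `e_3 + e_5`, `e_4 + e_6`. -/
def P0 (K : Type) [Field K] : Fin 10 → Fin 7 → K :=
  ![
    ![1, 0, 0, 0, 0, 0, 0],
    ![0, 1, 0, 0, 0, 0, 0],
    ![0, 0, 1, 0, 0, 0, 0],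
    ![0, 0, 0, 1, 0, 0, 0],
    ![0, 0, 0, 0, 1, 0, 0],
    ![0, 0, 0, 0, 0, 1, 0],
    ![0, 0, 0, 0, 0, 0, 1],
    ![1, 1, 1, 0, 0, 0, 0],
    ![0, 0, 0, 1, 0, 1, 0],
    ![0, 0, 0, 0, 1, 0, 1]]

theorem mem_cross (u v : Fin 10) (h1 : (v : ℕ) ≠ (u : ℕ) + 5) (h2 : (u : ℕ) ≠ (v : ℕ) + 5) :
    ({u, v} : Finset (Fin 10)) ∈ cross := by
  unfold cross
  rw [Finset.mem_filter]
  refine ⟨Finset.mem_univ _, ?_⟩
  intro i hi j hj
  rw [Finset.mem_insert, Finset.mem_singleton] at hi hj
  rcases hi with rfl | rfl <;> rcases hj with rfl | rfl <;> omega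

theorem q00 {z : Fin 10 → Fin 7 → K} (h : Motion cross (P0 K) z) :
    z 0 0 + z 0 0 = 0 := by
  have h1 := h 0 0 (mem_cross 0 0 (by decide) (by decide))
  simp only [Fin.sum_univ_seven] at h1
  simp [P0] at h1
  linear_combination 2 * h1

theorem q01 {z : Fin 10 → Fin 7 → K} (h : Motion cross (P0 K) z) :
    z 0 1 + z 1 0 = 0 := by
  have h1 := h 0 1 (mem_cross 0 1 (by decide) (by decide))
  simp only [Fin.sum_univ_seven] at h1
  simp [P0] at h1
  linear_combination h1

theorem q02 {z : Fin 10 → Fin 7 → K} (h : Motion cross (P0 K) z) :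
    z 0 2 + z 2 0 = 0 := by
  have h1 := h 0 2 (mem_cross 0 2 (by decide) (by decide))
  simp only [Fin.sum_univ_seven] at h1
  simp [P0] at h1
  linear_combination h1

theorem q03 {z : Fin 10 → Fin 7 → K} (h : Motion cross (P0 K) z) :
    z 0 3 + z 3 0 = 0 := by
  have h1 := h 0 3 (mem_cross 0 3 (by decide) (by decide))
  simp only [Fin.sum_univ_seven] at h1
  simp [P0] at h1
  linear_combination h1

theorem q04 {z : Fin 10 → Fin 7 → K} (h : Motion cross (P0 K) z) :
    z 0 4 + z 4 0 = 0 := by
  have h1 := h 0 4 (mem_cross 0 4 (by decide) (by decide))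
  simp only [Fin.sum_univ_seven] at h1
  simp [P0] at h1
  linear_combination h1

theorem q06 {z : Fin 10 → Fin 7 → K} (h : Motion cross (P0 K) z) :
    z 0 6 + z 6 0 = 0 := by
  have h1 := h 0 6 (mem_cross 0 6 (by decide) (by decide))
  simp only [Fin.sum_univ_seven] at h1
  simp [P0] at h1
  linear_combination h1

theorem q07 {z : Fin 10 → Fin 7 → K} (h : Motion cross (P0 K) z) :
    z 0 0 + z 0 1 + z 0 2 + z 7 0 = 0 := by
  have h1 := h 0 7 (mem_cross 0 7 (by decide) (by decide))
  simp only [Fin.sum_univ_seven] at h1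
  simp [P0] at h1
  linear_combination h1

theorem q08 {z : Fin 10 → Fin 7 → K} (h : Motion cross (P0 K) z) :
    z 0 3 + z 0 5 + z 8 0 = 0 := by
  have h1 := h 0 8 (mem_cross 0 8 (by decide) (by decide))
  simp only [Fin.sum_univ_seven] at h1
  simp [P0] at h1
  linear_combination h1

theorem q09 {z : Fin 10 → Fin 7 → K} (h : Motion cross (P0 K) z) :
    z 0 4 + z 0 6 + z 9 0 = 0 := by
  have h1 := h 0 9 (mem_cross 0 9 (by decide) (by decide))
  simp only [Fin.sum_univ_seven] at h1
  simp [P0] at h1
  linear_combination h1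

theorem q11 {z : Fin 10 → Fin 7 → K} (h : Motion cross (P0 K) z) :
    z 1 1 + z 1 1 = 0 := by
  have h1 := h 1 1 (mem_cross 1 1 (by decide) (by decide))
  simp only [Fin.sum_univ_seven] at h1
  simp [P0] at h1
  linear_combination 2 * h1

theorem q12 {z : Fin 10 → Fin 7 → K} (h : Motion cross (P0 K) z) :
    z 1 2 + z 2 1 = 0 := by
  have h1 := h 1 2 (mem_cross 1 2 (by decide) (by decide))
  simp only [Fin.sum_univ_seven] at h1
  simp [P0] at h1
  linear_combination h1

theorem q13 {z : Fin 10 → Fin 7 → K} (h : Motion cross (P0 K) z) :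
    z 1 3 + z 3 1 = 0 := by
  have h1 := h 1 3 (mem_cross 1 3 (by decide) (by decide))
  simp only [Fin.sum_univ_seven] at h1
  simp [P0] at h1
  linear_combination h1

theorem q14 {z : Fin 10 → Fin 7 → K} (h : Motion cross (P0 K) z) :
    z 1 4 + z 4 1 = 0 := by
  have h1 := h 1 4 (mem_cross 1 4 (by decide) (by decide))
  simp only [Fin.sum_univ_seven] at h1
  simp [P0] at h1
  linear_combination h1

theorem q15 {z : Fin 10 → Fin 7 → K} (h : Motion cross (P0 K) z) :
    z 1 5 + z 5 1 = 0 := by
  have h1 := h 1 5 (mem_cross 1 5 (by decide) (by decide))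
  simp only [Fin.sum_univ_seven] at h1
  simp [P0] at h1
  linear_combination h1

theorem q17 {z : Fin 10 → Fin 7 → K} (h : Motion cross (P0 K) z) :
    z 1 0 + z 1 1 + z 1 2 + z 7 1 = 0 := by
  have h1 := h 1 7 (mem_cross 1 7 (by decide) (by decide))
  simp only [Fin.sum_univ_seven] at h1
  simp [P0] at h1
  linear_combination h1

theorem q18 {z : Fin 10 → Fin 7 → K} (h : Motion cross (P0 K) z) :
    z 1 3 + z 1 5 + z 8 1 = 0 := by
  have h1 := h 1 8 (mem_cross 1 8 (by decide) (by decide))
  simp only [Fin.sum_univ_seven] at h1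
  simp [P0] at h1
  linear_combination h1

theorem q19 {z : Fin 10 → Fin 7 → K} (h : Motion cross (P0 K) z) :
    z 1 4 + z 1 6 + z 9 1 = 0 := by
  have h1 := h 1 9 (mem_cross 1 9 (by decide) (by decide))
  simp only [Fin.sum_univ_seven] at h1
  simp [P0] at h1
  linear_combination h1

theorem q22 {z : Fin 10 → Fin 7 → K} (h : Motion cross (P0 K) z) :
    z 2 2 + z 2 2 = 0 := by
  have h1 := h 2 2 (mem_cross 2 2 (by decide) (by decide))
  simp only [Fin.sum_univ_seven] at h1
  simp [P0] at h1
  linear_combination 2 * h1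

theorem q23 {z : Fin 10 → Fin 7 → K} (h : Motion cross (P0 K) z) :
    z 2 3 + z 3 2 = 0 := by
  have h1 := h 2 3 (mem_cross 2 3 (by decide) (by decide))
  simp only [Fin.sum_univ_seven] at h1
  simp [P0] at h1
  linear_combination h1

theorem q24 {z : Fin 10 → Fin 7 → K} (h : Motion cross (P0 K) z) :
    z 2 4 + z 4 2 = 0 := by
  have h1 := h 2 4 (mem_cross 2 4 (by decide) (by decide))
  simp only [Fin.sum_univ_seven] at h1
  simp [P0] at h1
  linear_combination h1

theorem q25 {z : Fin 10 → Fin 7 → K} (h : Motion cross (P0 K) z) :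
    z 2 5 + z 5 2 = 0 := by
  have h1 := h 2 5 (mem_cross 2 5 (by decide) (by decide))
  simp only [Fin.sum_univ_seven] at h1
  simp [P0] at h1
  linear_combination h1

theorem q26 {z : Fin 10 → Fin 7 → K} (h : Motion cross (P0 K) z) :
    z 2 6 + z 6 2 = 0 := by
  have h1 := h 2 6 (mem_cross 2 6 (by decide) (by decide))
  simp only [Fin.sum_univ_seven] at h1
  simp [P0] at h1
  linear_combination h1

theorem q28 {z : Fin 10 → Fin 7 → K} (h : Motion cross (P0 K) z) :
    z 2 3 + z 2 5 + z 8 2 = 0 := by
  have h1 := h 2 8 (mem_cross 2 8 (by decide) (by decide))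
  simp only [Fin.sum_univ_seven] at h1
  simp [P0] at h1
  linear_combination h1

theorem q29 {z : Fin 10 → Fin 7 → K} (h : Motion cross (P0 K) z) :
    z 2 4 + z 2 6 + z 9 2 = 0 := by
  have h1 := h 2 9 (mem_cross 2 9 (by decide) (by decide))
  simp only [Fin.sum_univ_seven] at h1
  simp [P0] at h1
  linear_combination h1

theorem q33 {z : Fin 10 → Fin 7 → K} (h : Motion cross (P0 K) z) :
    z 3 3 + z 3 3 = 0 := by
  have h1 := h 3 3 (mem_cross 3 3 (by decide) (by decide))
  simp only [Fin.sum_univ_seven] at h1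
  simp [P0] at h1
  linear_combination 2 * h1

theorem q34 {z : Fin 10 → Fin 7 → K} (h : Motion cross (P0 K) z) :
    z 3 4 + z 4 3 = 0 := by
  have h1 := h 3 4 (mem_cross 3 4 (by decide) (by decide))
  simp only [Fin.sum_univ_seven] at h1
  simp [P0] at h1
  linear_combination h1

theorem q35 {z : Fin 10 → Fin 7 → K} (h : Motion cross (P0 K) z) :
    z 3 5 + z 5 3 = 0 := by
  have h1 := h 3 5 (mem_cross 3 5 (by decide) (by decide))
  simp only [Fin.sum_univ_seven] at h1
  simp [P0] at h1
  linear_combination h1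

theorem q36 {z : Fin 10 → Fin 7 → K} (h : Motion cross (P0 K) z) :
    z 3 6 + z 6 3 = 0 := by
  have h1 := h 3 6 (mem_cross 3 6 (by decide) (by decide))
  simp only [Fin.sum_univ_seven] at h1
  simp [P0] at h1
  linear_combination h1

theorem q37 {z : Fin 10 → Fin 7 → K} (h : Motion cross (P0 K) z) :
    z 3 0 + z 3 1 + z 3 2 + z 7 3 = 0 := by
  have h1 := h 3 7 (mem_cross 3 7 (by decide) (by decide))
  simp only [Fin.sum_univ_seven] at h1
  simp [P0] at h1
  linear_combination h1

theorem q39 {z : Fin 10 → Fin 7 → K} (h : Motion cross (P0 K) z) :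
    z 3 4 + z 3 6 + z 9 3 = 0 := by
  have h1 := h 3 9 (mem_cross 3 9 (by decide) (by decide))
  simp only [Fin.sum_univ_seven] at h1
  simp [P0] at h1
  linear_combination h1

theorem q44 {z : Fin 10 → Fin 7 → K} (h : Motion cross (P0 K) z) :
    z 4 4 + z 4 4 = 0 := by
  have h1 := h 4 4 (mem_cross 4 4 (by decide) (by decide))
  simp only [Fin.sum_univ_seven] at h1
  simp [P0] at h1
  linear_combination 2 * h1

theorem q45 {z : Fin 10 → Fin 7 → K} (h : Motion cross (P0 K) z) :
    z 4 5 + z 5 4 = 0 := by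
  have h1 := h 4 5 (mem_cross 4 5 (by decide) (by decide))
  simp only [Fin.sum_univ_seven] at h1
  simp [P0] at h1
  linear_combination h1

theorem q46 {z : Fin 10 → Fin 7 → K} (h : Motion cross (P0 K) z) :
    z 4 6 + z 6 4 = 0 := by
  have h1 := h 4 6 (mem_cross 4 6 (by decide) (by decide))
  simp only [Fin.sum_univ_seven] at h1
  simp [P0] at h1
  linear_combination h1

theorem q47 {z : Fin 10 → Fin 7 → K} (h : Motion cross (P0 K) z) :
    z 4 0 + z 4 1 + z 4 2 + z 7 4 = 0 := by
  have h1 := h 4 7 (mem_cross 4 7 (by decide) (by decide))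
  simp only [Fin.sum_univ_seven] at h1
  simp [P0] at h1
  linear_combination h1

theorem q48 {z : Fin 10 → Fin 7 → K} (h : Motion cross (P0 K) z) :
    z 4 3 + z 4 5 + z 8 4 = 0 := by
  have h1 := h 4 8 (mem_cross 4 8 (by decide) (by decide))
  simp only [Fin.sum_univ_seven] at h1
  simp [P0] at h1
  linear_combination h1

theorem q55 {z : Fin 10 → Fin 7 → K} (h : Motion cross (P0 K) z) :
    z 5 5 + z 5 5 = 0 := by
  have h1 := h 5 5 (mem_cross 5 5 (by decide) (by decide))
  simp only [Fin.sum_univ_seven] at h1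
  simp [P0] at h1
  linear_combination 2 * h1

theorem q56 {z : Fin 10 → Fin 7 → K} (h : Motion cross (P0 K) z) :
    z 5 6 + z 6 5 = 0 := by
  have h1 := h 5 6 (mem_cross 5 6 (by decide) (by decide))
  simp only [Fin.sum_univ_seven] at h1
  simp [P0] at h1
  linear_combination h1

theorem q57 {z : Fin 10 → Fin 7 → K} (h : Motion cross (P0 K) z) :
    z 5 0 + z 5 1 + z 5 2 + z 7 5 = 0 := by
  have h1 := h 5 7 (mem_cross 5 7 (by decide) (by decide))
  simp only [Fin.sum_univ_seven] at h1
  simp [P0] at h1
  linear_combination h1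

theorem q58 {z : Fin 10 → Fin 7 → K} (h : Motion cross (P0 K) z) :
    z 5 3 + z 5 5 + z 8 5 = 0 := by
  have h1 := h 5 8 (mem_cross 5 8 (by decide) (by decide))
  simp only [Fin.sum_univ_seven] at h1
  simp [P0] at h1
  linear_combination h1

theorem q59 {z : Fin 10 → Fin 7 → K} (h : Motion cross (P0 K) z) :
    z 5 4 + z 5 6 + z 9 5 = 0 := by
  have h1 := h 5 9 (mem_cross 5 9 (by decide) (by decide))
  simp only [Fin.sum_univ_seven] at h1
  simp [P0] at h1
  linear_combination h1

theorem q66 {z : Fin 10 → Fin 7 → K} (h : Motion cross (P0 K) z) :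
    z 6 6 + z 6 6 = 0 := by
  have h1 := h 6 6 (mem_cross 6 6 (by decide) (by decide))
  simp only [Fin.sum_univ_seven] at h1
  simp [P0] at h1
  linear_combination 2 * h1

theorem q67 {z : Fin 10 → Fin 7 → K} (h : Motion cross (P0 K) z) :
    z 6 0 + z 6 1 + z 6 2 + z 7 6 = 0 := by
  have h1 := h 6 7 (mem_cross 6 7 (by decide) (by decide))
  simp only [Fin.sum_univ_seven] at h1
  simp [P0] at h1
  linear_combination h1

theorem q68 {z : Fin 10 → Fin 7 → K} (h : Motion cross (P0 K) z) :
    z 6 3 + z 6 5 + z 8 6 = 0 := by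
  have h1 := h 6 8 (mem_cross 6 8 (by decide) (by decide))
  simp only [Fin.sum_univ_seven] at h1
  simp [P0] at h1
  linear_combination h1

theorem q69 {z : Fin 10 → Fin 7 → K} (h : Motion cross (P0 K) z) :
    z 6 4 + z 6 6 + z 9 6 = 0 := by
  have h1 := h 6 9 (mem_cross 6 9 (by decide) (by decide))
  simp only [Fin.sum_univ_seven] at h1
  simp [P0] at h1
  linear_combination h1

theorem q77 {z : Fin 10 → Fin 7 → K} (h : Motion cross (P0 K) z) :
    z 7 0 + z 7 1 + z 7 2 + z 7 0 + z 7 1 + z 7 2 = 0 := by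
  have h1 := h 7 7 (mem_cross 7 7 (by decide) (by decide))
  simp only [Fin.sum_univ_seven] at h1
  simp [P0] at h1
  linear_combination h1

theorem q78 {z : Fin 10 → Fin 7 → K} (h : Motion cross (P0 K) z) :
    z 7 3 + z 7 5 + z 8 0 + z 8 1 + z 8 2 = 0 := by
  have h1 := h 7 8 (mem_cross 7 8 (by decide) (by decide))
  simp only [Fin.sum_univ_seven] at h1
  simp [P0] at h1
  linear_combination h1

theorem q79 {z : Fin 10 → Fin 7 → K} (h : Motion cross (P0 K) z) :
    z 7 4 + z 7 6 + z 9 0 + z 9 1 + z 9 2 = 0 := by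
  have h1 := h 7 9 (mem_cross 7 9 (by decide) (by decide))
  simp only [Fin.sum_univ_seven] at h1
  simp [P0] at h1
  linear_combination h1

theorem q88 {z : Fin 10 → Fin 7 → K} (h : Motion cross (P0 K) z) :
    z 8 3 + z 8 5 + z 8 3 + z 8 5 = 0 := by
  have h1 := h 8 8 (mem_cross 8 8 (by decide) (by decide))
  simp only [Fin.sum_univ_seven] at h1
  simp [P0] at h1
  linear_combination h1

theorem q89 {z : Fin 10 → Fin 7 → K} (h : Motion cross (P0 K) z) :
    z 8 4 + z 8 6 + z 9 3 + z 9 5 = 0 := by
  have h1 := h 8 9 (mem_cross 8 9 (by decide) (by decide))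
  simp only [Fin.sum_univ_seven] at h1
  simp [P0] at h1
  linear_combination h1

theorem q99 {z : Fin 10 → Fin 7 → K} (h : Motion cross (P0 K) z) :
    z 9 4 + z 9 6 + z 9 4 + z 9 6 = 0 := by
  have h1 := h 9 9 (mem_cross 9 9 (by decide) (by decide))
  simp only [Fin.sum_univ_seven] at h1
  simp [P0] at h1
  linear_combination h1

theorem a00 {z : Fin 10 → Fin 7 → K} (h : Motion cross (P0 K) z) : z 0 0 + z 0 0 = 0 := by
  have h00 := q00 h
  linear_combination (1 : K) * h00

theorem a01 {z : Fin 10 → Fin 7 → K} (h : Motion cross (P0 K) z) : z 0 1 + z 1 0 = 0 := by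
  have h01 := q01 h
  linear_combination (1 : K) * h01

theorem a02 {z : Fin 10 → Fin 7 → K} (h : Motion cross (P0 K) z) : z 0 2 + z 2 0 = 0 := by
  have h02 := q02 h
  linear_combination (1 : K) * h02

theorem a03 {z : Fin 10 → Fin 7 → K} (h : Motion cross (P0 K) z) : z 0 3 + z 3 0 = 0 := by
  have h03 := q03 h
  linear_combination (1 : K) * h03

theorem a04 {z : Fin 10 → Fin 7 → K} (h : Motion cross (P0 K) z) : z 0 4 + z 4 0 = 0 := by
  have h04 := q04 h
  linear_combination (1 : K) * h04

theorem a05 {z : Fin 10 → Fin 7 → K} (h : Motion cross (P0 K) z) : z 0 5 + z 5 0 = 0 := by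
  have h03 := q03 h
  have h08 := q08 h
  have h13 := q13 h
  have h15 := q15 h
  have h18 := q18 h
  have h23 := q23 h
  have h25 := q25 h
  have h28 := q28 h
  have h37 := q37 h
  have h57 := q57 h
  have h78 := q78 h
  linear_combination (-1 : K) * h03 + (1 : K) * h08 + (-1 : K) * h13 + (-1 : K) * h15 + (1 : K) * h18 + (-1 : K) * h23 + (-1 : K) * h25 + (1 : K) * h28 + (1 : K) * h37 + (1 : K) * h57 + (-1 : K) * h78

theorem a06 {z : Fin 10 → Fin 7 → K} (h : Motion cross (P0 K) z) : z 0 6 + z 6 0 = 0 := by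
  have h06 := q06 h
  linear_combination (1 : K) * h06

theorem a11 {z : Fin 10 → Fin 7 → K} (h : Motion cross (P0 K) z) : z 1 1 + z 1 1 = 0 := by
  have h11 := q11 h
  linear_combination (1 : K) * h11

theorem a12 {z : Fin 10 → Fin 7 → K} (h : Motion cross (P0 K) z) : z 1 2 + z 2 1 = 0 := by
  have h12 := q12 h
  linear_combination (1 : K) * h12

theorem a13 {z : Fin 10 → Fin 7 → K} (h : Motion cross (P0 K) z) : z 1 3 + z 3 1 = 0 := by
  have h13 := q13 h
  linear_combination (1 : K) * h13

theorem a14 {z : Fin 10 → Fin 7 → K} (h : Motion cross (P0 K) z) : z 1 4 + z 4 1 = 0 := by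
  have h14 := q14 h
  linear_combination (1 : K) * h14

theorem a15 {z : Fin 10 → Fin 7 → K} (h : Motion cross (P0 K) z) : z 1 5 + z 5 1 = 0 := by
  have h15 := q15 h
  linear_combination (1 : K) * h15

theorem a16 {z : Fin 10 → Fin 7 → K} (h : Motion cross (P0 K) z) : z 1 6 + z 6 1 = 0 := by
  have h04 := q04 h
  have h06 := q06 h
  have h09 := q09 h
  have h14 := q14 h
  have h19 := q19 h
  have h24 := q24 h
  have h26 := q26 h
  have h29 := q29 h
  have h47 := q47 h
  have h67 := q67 h
  have h79 := q79 h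
  linear_combination (-1 : K) * h04 + (-1 : K) * h06 + (1 : K) * h09 + (-1 : K) * h14 + (1 : K) * h19 + (-1 : K) * h24 + (-1 : K) * h26 + (1 : K) * h29 + (1 : K) * h47 + (1 : K) * h67 + (-1 : K) * h79

theorem a22 {z : Fin 10 → Fin 7 → K} (h : Motion cross (P0 K) z) : z 2 2 + z 2 2 = 0 := by
  have h22 := q22 h
  linear_combination (1 : K) * h22

theorem a23 {z : Fin 10 → Fin 7 → K} (h : Motion cross (P0 K) z) : z 2 3 + z 3 2 = 0 := by
  have h23 := q23 h
  linear_combination (1 : K) * h23

theorem a24 {z : Fin 10 → Fin 7 → K} (h : Motion cross (P0 K) z) : z 2 4 + z 4 2 = 0 := by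
  have h24 := q24 h
  linear_combination (1 : K) * h24

theorem a25 {z : Fin 10 → Fin 7 → K} (h : Motion cross (P0 K) z) : z 2 5 + z 5 2 = 0 := by
  have h25 := q25 h
  linear_combination (1 : K) * h25

theorem a26 {z : Fin 10 → Fin 7 → K} (h : Motion cross (P0 K) z) : z 2 6 + z 6 2 = 0 := by
  have h26 := q26 h
  linear_combination (1 : K) * h26

theorem a33 {z : Fin 10 → Fin 7 → K} (h : Motion cross (P0 K) z) : z 3 3 + z 3 3 = 0 := by
  have h33 := q33 h
  linear_combination (1 : K) * h33

theorem a34 {z : Fin 10 → Fin 7 → K} (h : Motion cross (P0 K) z) : z 3 4 + z 4 3 = 0 := by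
  have h34 := q34 h
  linear_combination (1 : K) * h34

theorem a35 {z : Fin 10 → Fin 7 → K} (h : Motion cross (P0 K) z) : z 3 5 + z 5 3 = 0 := by
  have h35 := q35 h
  linear_combination (1 : K) * h35

theorem a36 {z : Fin 10 → Fin 7 → K} (h : Motion cross (P0 K) z) : z 3 6 + z 6 3 = 0 := by
  have h36 := q36 h
  linear_combination (1 : K) * h36

theorem a44 {z : Fin 10 → Fin 7 → K} (h : Motion cross (P0 K) z) : z 4 4 + z 4 4 = 0 := by
  have h44 := q44 h
  linear_combination (1 : K) * h44

theorem a45 {z : Fin 10 → Fin 7 → K} (h : Motion cross (P0 K) z) : z 4 5 + z 5 4 = 0 := by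
  have h45 := q45 h
  linear_combination (1 : K) * h45

theorem a46 {z : Fin 10 → Fin 7 → K} (h : Motion cross (P0 K) z) : z 4 6 + z 6 4 = 0 := by
  have h46 := q46 h
  linear_combination (1 : K) * h46

theorem a55 {z : Fin 10 → Fin 7 → K} (h : Motion cross (P0 K) z) : z 5 5 + z 5 5 = 0 := by
  have h55 := q55 h
  linear_combination (1 : K) * h55

theorem a56 {z : Fin 10 → Fin 7 → K} (h : Motion cross (P0 K) z) : z 5 6 + z 6 5 = 0 := by
  have h56 := q56 h
  linear_combination (1 : K) * h56

theorem a66 {z : Fin 10 → Fin 7 → K} (h : Motion cross (P0 K) z) : z 6 6 + z 6 6 = 0 := by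
  have h66 := q66 h
  linear_combination (1 : K) * h66

theorem b70 {z : Fin 10 → Fin 7 → K} (h : Motion cross (P0 K) z) : z 7 0 = z 0 0 + z 1 0 + z 2 0 := by
  have h00 := q00 h
  have h01 := q01 h
  have h02 := q02 h
  have h07 := q07 h
  linear_combination (-1 : K) * h00 + (-1 : K) * h01 + (-1 : K) * h02 + (1 : K) * h07

theorem b71 {z : Fin 10 → Fin 7 → K} (h : Motion cross (P0 K) z) : z 7 1 = z 0 1 + z 1 1 + z 2 1 := by
  have h01 := q01 h
  have h11 := q11 h
  have h12 := q12 h
  have h17 := q17 h
  linear_combination (-1 : K) * h01 + (-1 : K) * h11 + (-1 : K) * h12 + (1 : K) * h17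

theorem b72 {z : Fin 10 → Fin 7 → K} (h : Motion cross (P0 K) z) : z 7 2 = z 0 2 + z 1 2 + z 2 2 := by
  have h00 := q00 h
  have h01 := q01 h
  have h07 := q07 h
  have h11 := q11 h
  have h17 := q17 h
  have h22 := q22 h
  have h77 := q77 h
  linear_combination (1/2 : K) * h00 + (1 : K) * h01 + (-1 : K) * h07 + (1/2 : K) * h11 + (-1 : K) * h17 + (-1/2 : K) * h22 + (1/2 : K) * h77

theorem b73 {z : Fin 10 → Fin 7 → K} (h : Motion cross (P0 K) z) : z 7 3 = z 0 3 + z 1 3 + z 2 3 := by
  have h03 := q03 h
  have h13 := q13 h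
  have h23 := q23 h
  have h37 := q37 h
  linear_combination (-1 : K) * h03 + (-1 : K) * h13 + (-1 : K) * h23 + (1 : K) * h37

theorem b74 {z : Fin 10 → Fin 7 → K} (h : Motion cross (P0 K) z) : z 7 4 = z 0 4 + z 1 4 + z 2 4 := by
  have h04 := q04 h
  have h14 := q14 h
  have h24 := q24 h
  have h47 := q47 h
  linear_combination (-1 : K) * h04 + (-1 : K) * h14 + (-1 : K) * h24 + (1 : K) * h47

theorem b75 {z : Fin 10 → Fin 7 → K} (h : Motion cross (P0 K) z) : z 7 5 = z 0 5 + z 1 5 + z 2 5 := by
  have h03 := q03 h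
  have h08 := q08 h
  have h13 := q13 h
  have h18 := q18 h
  have h23 := q23 h
  have h28 := q28 h
  have h37 := q37 h
  have h78 := q78 h
  linear_combination (1 : K) * h03 + (-1 : K) * h08 + (1 : K) * h13 + (-1 : K) * h18 + (1 : K) * h23 + (-1 : K) * h28 + (-1 : K) * h37 + (1 : K) * h78

theorem b76 {z : Fin 10 → Fin 7 → K} (h : Motion cross (P0 K) z) : z 7 6 = z 0 6 + z 1 6 + z 2 6 := by
  have h04 := q04 h
  have h09 := q09 h
  have h14 := q14 h
  have h19 := q19 h
  have h24 := q24 h
  have h29 := q29 h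
  have h47 := q47 h
  have h79 := q79 h
  linear_combination (1 : K) * h04 + (-1 : K) * h09 + (1 : K) * h14 + (-1 : K) * h19 + (1 : K) * h24 + (-1 : K) * h29 + (-1 : K) * h47 + (1 : K) * h79

theorem b80 {z : Fin 10 → Fin 7 → K} (h : Motion cross (P0 K) z) : z 8 0 = z 3 0 + z 5 0 := by
  have h13 := q13 h
  have h15 := q15 h
  have h18 := q18 h
  have h23 := q23 h
  have h25 := q25 h
  have h28 := q28 h
  have h37 := q37 h
  have h57 := q57 h
  have h78 := q78 h
  linear_combination (1 : K) * h13 + (1 : K) * h15 + (-1 : K) * h18 + (1 : K) * h23 + (1 : K) * h25 + (-1 : K) * h28 + (-1 : K) * h37 + (-1 : K) * h57 + (1 : K) * h78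

theorem b81 {z : Fin 10 → Fin 7 → K} (h : Motion cross (P0 K) z) : z 8 1 = z 3 1 + z 5 1 := by
  have h13 := q13 h
  have h15 := q15 h
  have h18 := q18 h
  linear_combination (-1 : K) * h13 + (-1 : K) * h15 + (1 : K) * h18

theorem b82 {z : Fin 10 → Fin 7 → K} (h : Motion cross (P0 K) z) : z 8 2 = z 3 2 + z 5 2 := by
  have h23 := q23 h
  have h25 := q25 h
  have h28 := q28 h
  linear_combination (-1 : K) * h23 + (-1 : K) * h25 + (1 : K) * h28

theorem b83 {z : Fin 10 → Fin 7 → K} (h : Motion cross (P0 K) z) : z 8 3 = z 3 3 + z 5 3 := by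
  have h33 := q33 h
  have h55 := q55 h
  have h58 := q58 h
  have h88 := q88 h
  linear_combination (-1/2 : K) * h33 + (1/2 : K) * h55 + (-1 : K) * h58 + (1/2 : K) * h88

theorem b84 {z : Fin 10 → Fin 7 → K} (h : Motion cross (P0 K) z) : z 8 4 = z 3 4 + z 5 4 := by
  have h34 := q34 h
  have h45 := q45 h
  have h48 := q48 h
  linear_combination (-1 : K) * h34 + (-1 : K) * h45 + (1 : K) * h48

theorem b85 {z : Fin 10 → Fin 7 → K} (h : Motion cross (P0 K) z) : z 8 5 = z 3 5 + z 5 5 := by
  have h35 := q35 h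
  have h55 := q55 h
  have h58 := q58 h
  linear_combination (-1 : K) * h35 + (-1 : K) * h55 + (1 : K) * h58

theorem b86 {z : Fin 10 → Fin 7 → K} (h : Motion cross (P0 K) z) : z 8 6 = z 3 6 + z 5 6 := by
  have h36 := q36 h
  have h56 := q56 h
  have h68 := q68 h
  linear_combination (-1 : K) * h36 + (-1 : K) * h56 + (1 : K) * h68

theorem b90 {z : Fin 10 → Fin 7 → K} (h : Motion cross (P0 K) z) : z 9 0 = z 4 0 + z 6 0 := by
  have h04 := q04 h
  have h06 := q06 h
  have h09 := q09 h
  linear_combination (-1 : K) * h04 + (-1 : K) * h06 + (1 : K) * h09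

theorem b91 {z : Fin 10 → Fin 7 → K} (h : Motion cross (P0 K) z) : z 9 1 = z 4 1 + z 6 1 := by
  have h04 := q04 h
  have h06 := q06 h
  have h09 := q09 h
  have h24 := q24 h
  have h26 := q26 h
  have h29 := q29 h
  have h47 := q47 h
  have h67 := q67 h
  have h79 := q79 h
  linear_combination (1 : K) * h04 + (1 : K) * h06 + (-1 : K) * h09 + (1 : K) * h24 + (1 : K) * h26 + (-1 : K) * h29 + (-1 : K) * h47 + (-1 : K) * h67 + (1 : K) * h79

theorem b92 {z : Fin 10 → Fin 7 → K} (h : Motion cross (P0 K) z) : z 9 2 = z 4 2 + z 6 2 := by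
  have h24 := q24 h
  have h26 := q26 h
  have h29 := q29 h
  linear_combination (-1 : K) * h24 + (-1 : K) * h26 + (1 : K) * h29

theorem b93 {z : Fin 10 → Fin 7 → K} (h : Motion cross (P0 K) z) : z 9 3 = z 4 3 + z 6 3 := by
  have h34 := q34 h
  have h36 := q36 h
  have h39 := q39 h
  linear_combination (-1 : K) * h34 + (-1 : K) * h36 + (1 : K) * h39

theorem b94 {z : Fin 10 → Fin 7 → K} (h : Motion cross (P0 K) z) : z 9 4 = z 4 4 + z 6 4 := by
  have h44 := q44 h
  have h66 := q66 h
  have h69 := q69 h
  have h99 := q99 h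
  linear_combination (-1/2 : K) * h44 + (1/2 : K) * h66 + (-1 : K) * h69 + (1/2 : K) * h99

theorem b95 {z : Fin 10 → Fin 7 → K} (h : Motion cross (P0 K) z) : z 9 5 = z 4 5 + z 6 5 := by
  have h45 := q45 h
  have h56 := q56 h
  have h59 := q59 h
  linear_combination (-1 : K) * h45 + (-1 : K) * h56 + (1 : K) * h59

theorem b96 {z : Fin 10 → Fin 7 → K} (h : Motion cross (P0 K) z) : z 9 6 = z 4 6 + z 6 6 := by
  have h46 := q46 h
  have h66 := q66 h
  have h69 := q69 h
  linear_combination (-1 : K) * h46 + (-1 : K) * h66 + (1 : K) * h69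

theorem cross_rigid : ∃ (P0 : Fin 10 → Fin 7 → K) (e : Fin 7 → Fin 10), Rigid cross P0 ∧
    (Matrix.of fun i j => P0 (e i) j).det ≠ 0 := by
  refine ⟨P0 K, ![0, 1, 2, 3, 4, 5, 6], ?_, ?_⟩
  · intro z h
    refine ⟨Matrix.of fun i j => z ((![0, 1, 2, 3, 4, 5, 6] : Fin 7 → Fin 10) j) i, ?_, ?_⟩
    · ext i j
      fin_cases i <;> fin_cases j
      · show z 0 0 = - z 0 0
        linear_combination a00 h
      · show z 0 1 = - z 1 0
        linear_combination a01 h
      · show z 0 2 = - z 2 0
        linear_combination a02 h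
      · show z 0 3 = - z 3 0
        linear_combination a03 h
      · show z 0 4 = - z 4 0
        linear_combination a04 h
      · show z 0 5 = - z 5 0
        linear_combination a05 h
      · show z 0 6 = - z 6 0
        linear_combination a06 h
      · show z 1 0 = - z 0 1
        linear_combination a01 h
      · show z 1 1 = - z 1 1
        linear_combination a11 h
      · show z 1 2 = - z 2 1
        linear_combination a12 h
      · show z 1 3 = - z 3 1
        linear_combination a13 h
      · show z 1 4 = - z 4 1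
        linear_combination a14 h
      · show z 1 5 = - z 5 1
        linear_combination a15 h
      · show z 1 6 = - z 6 1
        linear_combination a16 h
      · show z 2 0 = - z 0 2
        linear_combination a02 h
      · show z 2 1 = - z 1 2
        linear_combination a12 h
      · show z 2 2 = - z 2 2
        linear_combination a22 h
      · show z 2 3 = - z 3 2
        linear_combination a23 h
      · show z 2 4 = - z 4 2
        linear_combination a24 h
      · show z 2 5 = - z 5 2
        linear_combination a25 h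
      · show z 2 6 = - z 6 2
        linear_combination a26 h
      · show z 3 0 = - z 0 3
        linear_combination a03 h
      · show z 3 1 = - z 1 3
        linear_combination a13 h
      · show z 3 2 = - z 2 3
        linear_combination a23 h
      · show z 3 3 = - z 3 3
        linear_combination a33 h
      · show z 3 4 = - z 4 3
        linear_combination a34 h
      · show z 3 5 = - z 5 3
        linear_combination a35 h
      · show z 3 6 = - z 6 3
        linear_combination a36 h
      · show z 4 0 = - z 0 4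
        linear_combination a04 h
      · show z 4 1 = - z 1 4
        linear_combination a14 h
      · show z 4 2 = - z 2 4
        linear_combination a24 h
      · show z 4 3 = - z 3 4
        linear_combination a34 h
      · show z 4 4 = - z 4 4
        linear_combination a44 h
      · show z 4 5 = - z 5 4
        linear_combination a45 h
      · show z 4 6 = - z 6 4
        linear_combination a46 h
      · show z 5 0 = - z 0 5
        linear_combination a05 h
      · show z 5 1 = - z 1 5
        linear_combination a15 h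
      · show z 5 2 = - z 2 5
        linear_combination a25 h
      · show z 5 3 = - z 3 5
        linear_combination a35 h
      · show z 5 4 = - z 4 5
        linear_combination a45 h
      · show z 5 5 = - z 5 5
        linear_combination a55 h
      · show z 5 6 = - z 6 5
        linear_combination a56 h
      · show z 6 0 = - z 0 6
        linear_combination a06 h
      · show z 6 1 = - z 1 6
        linear_combination a16 h
      · show z 6 2 = - z 2 6
        linear_combination a26 h
      · show z 6 3 = - z 3 6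
        linear_combination a36 h
      · show z 6 4 = - z 4 6
        linear_combination a46 h
      · show z 6 5 = - z 5 6
        linear_combination a56 h
      · show z 6 6 = - z 6 6
        linear_combination a66 h
    · intro v _
      ext i
      fin_cases v
      · have h1 : P0 K 0 = Pi.single 0 1 := by
          ext k
          fin_cases k <;> simp [P0]
        show z 0 i = Matrix.mulVec _ (P0 K 0) i
        rw [h1, Matrix.mulVec_single_one]
        rfl
      · have h1 : P0 K 1 = Pi.single 1 1 := by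
          ext k
          fin_cases k <;> simp [P0]
        show z 1 i = Matrix.mulVec _ (P0 K 1) i
        rw [h1, Matrix.mulVec_single_one]
        rfl
      · have h1 : P0 K 2 = Pi.single 2 1 := by
          ext k
          fin_cases k <;> simp [P0]
        show z 2 i = Matrix.mulVec _ (P0 K 2) i
        rw [h1, Matrix.mulVec_single_one]
        rfl
      · have h1 : P0 K 3 = Pi.single 3 1 := by
          ext k
          fin_cases k <;> simp [P0]
        show z 3 i = Matrix.mulVec _ (P0 K 3) i
        rw [h1, Matrix.mulVec_single_one]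
        rfl
      · have h1 : P0 K 4 = Pi.single 4 1 := by
          ext k
          fin_cases k <;> simp [P0]
        show z 4 i = Matrix.mulVec _ (P0 K 4) i
        rw [h1, Matrix.mulVec_single_one]
        rfl
      · have h1 : P0 K 5 = Pi.single 5 1 := by
          ext k
          fin_cases k <;> simp [P0]
        show z 5 i = Matrix.mulVec _ (P0 K 5) i
        rw [h1, Matrix.mulVec_single_one]
        rfl
      · have h1 : P0 K 6 = Pi.single 6 1 := by
          ext k
          fin_cases k <;> simp [P0]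
        show z 6 i = Matrix.mulVec _ (P0 K 6) i
        rw [h1, Matrix.mulVec_single_one]
        rfl
      · have h1 : P0 K 7 = Pi.single 0 1 + Pi.single 1 1 + Pi.single 2 1 := by
          ext k
          fin_cases k <;> simp [P0]
        show z 7 i = Matrix.mulVec _ (P0 K 7) i
        rw [h1]
        simp only [Matrix.mulVec_add, Matrix.mulVec_single_one, Pi.add_apply]
        show z 7 i = z 0 i + z 1 i + z 2 i
        fin_cases i
        · exact b70 h
        · exact b71 h
        · exact b72 h
        · exact b73 h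
        · exact b74 h
        · exact b75 h
        · exact b76 h
      · have h1 : P0 K 8 = Pi.single 3 1 + Pi.single 5 1 := by
          ext k
          fin_cases k <;> simp [P0]
        show z 8 i = Matrix.mulVec _ (P0 K 8) i
        rw [h1]
        simp only [Matrix.mulVec_add, Matrix.mulVec_single_one, Pi.add_apply]
        show z 8 i = z 3 i + z 5 i
        fin_cases i
        · exact b80 h
        · exact b81 h
        · exact b82 h
        · exact b83 h
        · exact b84 h
        · exact b85 h
        · exact b86 h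
      · have h1 : P0 K 9 = Pi.single 4 1 + Pi.single 6 1 := by
          ext k
          fin_cases k <;> simp [P0]
        show z 9 i = Matrix.mulVec _ (P0 K 9) i
        rw [h1]
        simp only [Matrix.mulVec_add, Matrix.mulVec_single_one, Pi.add_apply]
        show z 9 i = z 4 i + z 6 i
        fin_cases i
        · exact b90 h
        · exact b91 h
        · exact b92 h
        · exact b93 h
        · exact b94 h
        · exact b95 h
        · exact b96 h
  · have h1 : (Matrix.of fun i j => P0 K ((![0, 1, 2, 3, 4, 5, 6] : Fin 7 → Fin 10) i) j) =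
        (1 : Matrix (Fin 7) (Fin 7) K) := by
      ext i j
      fin_cases i <;> fin_cases j <;> simp [P0]
    rw [h1, Matrix.det_one]
    exact one_ne_zero

end Pool.Agent.H877.Rg7
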