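import Pool.Agent.H128.Rg.Split2
import Pool.Agent.H128.Rg.W1
import Pool.Agent.H128.Rg.W7

set_option autoImplicit false
set_option linter.unusedSectionVars false

/-! Rigidity of vector configurations: complexes. -/

namespace Pool.Agent.H128.Rg

variable {V : Type} [Fintype V] [DecidableEq V] {K : Type} [Field K] [CharZero K] {m n : ℕ}

theorem GR_transport {V' : Type} [Fintype V'] [DecidableEq V'] (ψ : V → V') (hψ : Function.Injective ψ)
    (R : V → V → Prop) (R' : V' → V' → Prop) (h1 : ∀ u v, R' (ψ u) (ψ v) → R u v)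
    (h2 : ∀ u, R u u → R' (ψ u) (ψ u)) (h3 : ∀ u' v', R' u' v' → ∃ u v, ψ u = u' ∧ ψ v = v')
    (hg : GR K R' m) : GR K R m := by
  classical
  obtain ⟨f, hf, h⟩ := hg
  obtain ⟨Q, hQ⟩ : ∃ Q : Fin m × V' → K, MvPolynomial.eval Q f ≠ 0 :=
    Gen.exists ⟨f, hf, fun c hc => hc⟩
  obtain ⟨g, hgu, hgn⟩ : ∃ g : Fin m × V' → MvPolynomial (Fin m × V) K,
      (∀ i u, g (i, ψ u) = MvPolynomial.X (i, u)) ∧
      ∀ i w, (¬ ∃ u, ψ u = w) → g (i, w) = MvPolynomial.C (Q (i, w)) := by
    refine ⟨fun q => if h : ∃ u, ψ u = q.2 then MvPolynomial.X (q.1, h.choose) else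
      MvPolynomial.C (Q q), ?_, ?_⟩
    · intro i u
      have hex : ∃ u', ψ u' = ψ u := ⟨u, rfl⟩
      show (if h : ∃ u', ψ u' = ψ u then MvPolynomial.X (i, h.choose) else MvPolynomial.C (Q (i, ψ u))) = _
      rw [dif_pos hex, hψ hex.choose_spec]
    · intro i w hw
      show (if h : ∃ u', ψ u' = w then MvPolynomial.X (i, h.choose) else MvPolynomial.C (Q (i, w))) = _
      rw [dif_neg hw]
  refine ⟨MvPolynomial.aeval g f, ?_, ?_⟩
  · intro h0
    refine hQ ?_
    have h4 := congrArg (MvPolynomial.eval fun q : Fin m × V => Q (q.1, ψ q.2)) h0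
    rw [eval_aeval, map_zero] at h4
    rw [← h4]
    congr 2
    funext q
    obtain ⟨i, w⟩ := q
    by_cases hw : ∃ u, ψ u = w
    · obtain ⟨u, rfl⟩ := hw
      rw [hgu, MvPolynomial.eval_X]
    · rw [hgn i w hw, MvPolynomial.eval_C]
  · intro c hc z hz
    rw [eval_aeval] at hc
    obtain ⟨z', hz1⟩ : ∃ z' : V' → Fin m → K, ∀ u, z' (ψ u) = z u := by
      refine ⟨fun w => if h : ∃ u, ψ u = w then z h.choose else 0, ?_⟩
      intro u
      have hex : ∃ u', ψ u' = ψ u := ⟨u, rfl⟩
      show (if h : ∃ u', ψ u' = ψ u then z h.choose else 0) = _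
      rw [dif_pos hex, hψ hex.choose_spec]
    obtain ⟨X, hX, hX'⟩ := h _ hc z' fun u' v' huv => by
      obtain ⟨u, v, rfl, rfl⟩ := h3 u' v' huv
      simp only [hz1, hgu, MvPolynomial.eval_X]
      exact hz u v (h1 u v huv)
    refine ⟨X, hX, fun v hv => ?_⟩
    have h5 := hX' (ψ v) (h2 v hv)
    simp only [hz1, hgu, MvPolynomial.eval_X] at h5
    exact h5

lemma genRigid_iff (S : Finset (Finset V)) (m : ℕ) :
    GenRigid K S m ↔ GR K (fun u v => ({u, v} : Finset V) ∈ S) m := by
  have key : ∀ v : V, (({v, v} : Finset V) ∈ S ↔ ({v} : Finset V) ∈ S) := fun v => by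
    rw [Finset.pair_eq_singleton]
  constructor
  · intro h
    refine Gen.mono h fun c hc z hz => ?_
    obtain ⟨X, hX, hX'⟩ := hc z hz
    exact ⟨X, hX, fun v hv => hX' v ((key v).1 hv)⟩
  · intro h
    refine Gen.mono h fun c hc z hz => ?_
    obtain ⟨X, hX, hX'⟩ := hc z hz
    exact ⟨X, hX, fun v hv => hX' v ((key v).2 hv)⟩

/-- Vertex splitting for complexes. -/
theorem gen_split (S : Finset (Finset V)) (hS : Down S) (a c : V) (hac : a ≠ c)
    (h : ({a, c} : Finset V) ∈ S) (hL : m ≤ (common S a c).card)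
    (hV : m + 1 ≤ (Finset.univ.filter fun u : V => ({u} : Finset V) ∈ S).card)
    (hg : GenRigid K (contract S a c) m) : GenRigid K S m := by
  rw [genRigid_iff] at hg ⊢
  have hcon : ∀ σ, σ ∈ contract S a c ↔ ∃ τ ∈ S, (if c ∈ τ then insert a (τ.erase c) else τ) = σ := by
    intro σ
    rw [contract, Finset.mem_image]
  refine GR_split (fun u v => ({u, v} : Finset V) ∈ S) (fun u v => ({u, v} : Finset V) ∈ contract S a c)
    (fun u v huv => by rw [Finset.pair_comm]; exact huv)
    (fun u v huv => hS _ huv _ (by intro x hx; simp only [Finset.mem_insert, Finset.mem_singleton] at hx ⊢; tauto))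
    a c hac h (common S a c) (fun u hu => (Finset.mem_filter.1 hu).2) hL
    ((Finset.univ.filter fun u : V => ({u} : Finset V) ∈ S).erase c) ?_ ?_ ?_ ?_ ?_ hg
  · intro u hu
    rw [Finset.mem_erase, Finset.mem_filter] at hu
    exact ⟨by rw [Finset.pair_eq_singleton]; exact hu.2.2, hu.1⟩
  · have := Finset.pred_card_le_card_erase (s := Finset.univ.filter fun u : V => ({u} : Finset V) ∈ S) (a := c)
    omega
  · have hd : Down (contract S a c) := by
      intro F hF G hG
      obtain ⟨τ, hτ, rfl⟩ := (hcon F).1 hF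
      by_cases hc : c ∈ τ
      · rw [if_pos hc] at hG
        by_cases ha : a ∈ G
        · refine (hcon G).2 ⟨insert c (G.erase a), hS _ hτ _ ?_, ?_⟩
          · intro x hx
            rw [Finset.mem_insert, Finset.mem_erase] at hx
            rcases hx with rfl | ⟨hx1, hx2⟩
            · exact hc
            · rcases Finset.mem_insert.1 (hG hx2) with h1 | h1
              · exact absurd h1 hx1
              · exact (Finset.mem_erase.1 h1).2
          · rw [if_pos (Finset.mem_insert_self _ _)]
            have hcG : c ∉ G := fun h1 => by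
              rcases Finset.mem_insert.1 (hG h1) with h2 | h2
              · exact hac h2.symm
              · exact (Finset.mem_erase.1 h2).1 rfl
            ext x
            simp only [Finset.mem_insert, Finset.mem_erase]
            constructor
            · rintro (rfl | ⟨h1, rfl | ⟨-, h2⟩⟩)
              · exact ha
              · exact absurd rfl h1
              · exact h2
            · intro hx
              by_cases hxa : x = a
              · exact Or.inl hxa
              · exact Or.inr ⟨fun h1 => hcG (by rw [← h1]; exact hx), Or.inr ⟨hxa, hx⟩⟩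
        · have hcG : c ∉ G := fun h1 => by
            rcases Finset.mem_insert.1 (hG h1) with h2 | h2
            · exact hac h2.symm
            · exact (Finset.mem_erase.1 h2).1 rfl
          refine (hcon G).2 ⟨G, hS _ hτ _ ?_, if_neg hcG⟩
          intro x hx
          rcases Finset.mem_insert.1 (hG hx) with h1 | h1
          · exact absurd (by rw [← h1]; exact hx) ha
          · exact (Finset.mem_erase.1 h1).2
      · rw [if_neg hc] at hG
        exact (hcon G).2 ⟨G, hS _ hτ _ hG, if_neg fun h1 => hc (hG h1)⟩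
    intro u v huv
    exact ⟨hd _ huv _ (by intro x hx; simp only [Finset.mem_insert, Finset.mem_singleton] at hx ⊢; tauto),
      hd _ huv _ (by intro x hx; simp only [Finset.mem_insert, Finset.mem_singleton] at hx ⊢; tauto)⟩
  · intro u v huv
    obtain ⟨τ, hτ, he⟩ := (hcon _).1 huv
    have hnc : ∀ x ∈ ({u, v} : Finset V), x ≠ c := by
      intro x hx hxc
      subst hxc
      rw [← he] at hx
      by_cases hc : x ∈ τ
      · rw [if_pos hc] at hx
        rcases Finset.mem_insert.1 hx with h2 | h2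
        · exact hac h2.symm
        · exact (Finset.mem_erase.1 h2).1 rfl
      · rw [if_neg hc] at hx
        exact hc hx
    refine ⟨hnc u (by simp), hnc v (by simp), ?_⟩
    by_cases hc : c ∈ τ
    · rw [if_pos hc] at he
      have hmem : ∀ x, x ∈ ({u, v} : Finset V) → x = a ∨ x ∈ τ := by
        intro x hx
        rw [← he] at hx
        rcases Finset.mem_insert.1 hx with h1 | h1
        · exact Or.inl h1
        · exact Or.inr (Finset.mem_erase.1 h1).2
      have hsub : ∀ x y, x ∈ τ → y ∈ τ → ({x, y} : Finset V) ∈ S := by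
        intro x y hx hy
        refine hS _ hτ _ ?_
        intro w hw
        rw [Finset.mem_insert, Finset.mem_singleton] at hw
        rcases hw with rfl | rfl
        · exact hx
        · exact hy
      rcases hmem u (by simp) with hu | hu
      · rcases hmem v (by simp) with hv | hv
        · refine Or.inl (hS _ h _ ?_)
          rw [hu, hv]
          simp
        · exact Or.inr (Or.inl ⟨hu, hsub c v hc hv⟩)
      · rcases hmem v (by simp) with hv | hv
        · exact Or.inr (Or.inr ⟨hv, hsub u c hu hc⟩)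
        · exact Or.inl (hsub u v hu hv)
    · rw [if_neg hc] at he
      exact Or.inl (by rw [← he]; exact hτ)
  · intro v hv hvc
    refine (hcon _).2 ⟨{v, v}, hv, if_neg ?_⟩
    rw [Finset.pair_eq_singleton, Finset.mem_singleton]
    exact fun h1 => hvc h1.symm

/-- Transport along a map which is injective on the vertices; more edges are allowed. -/
theorem gen_extend {V' : Type} [Fintype V'] [DecidableEq V'] (S : Finset (Finset V)) (S' : Finset (Finset V'))
    (hS : Down S) (ψ : V → V')
    (hψ : ∀ u v, ({u} : Finset V) ∈ S → ({v} : Finset V) ∈ S → ψ u = ψ v → u = v)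
    (h1 : ∀ u v, ({u, v} : Finset V) ∈ S → ({ψ u, ψ v} : Finset V') ∈ S')
    (h2 : ∀ w, ({w} : Finset V') ∈ S' → ∃ u, ({u} : Finset V) ∈ S ∧ ψ u = w)
    (hg : GenRigid K S m) : GenRigid K S' m := by
  classical
  obtain ⟨f, hf, h⟩ := hg
  obtain ⟨Q, hQ⟩ : ∃ Q : Fin m × V → K, MvPolynomial.eval Q f ≠ 0 :=
    Gen.exists ⟨f, hf, fun c hc => hc⟩
  obtain ⟨g, hg⟩ : ∃ g : Fin m × V → MvPolynomial (Fin m × V') K, ∀ i u, g (i, u) =
      if ({u} : Finset V) ∈ S then MvPolynomial.X (i, ψ u) else MvPolynomial.C (Q (i, u)) :=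
    ⟨fun q => if ({q.2} : Finset V) ∈ S then MvPolynomial.X (q.1, ψ q.2) else MvPolynomial.C (Q q),
      fun _ _ => rfl⟩
  refine ⟨MvPolynomial.aeval g f, ?_, ?_⟩
  · intro h0
    refine hQ ?_
    obtain ⟨c, hc⟩ : ∃ c : Fin m × V' → K, ∀ i u, ({u} : Finset V) ∈ S → c (i, ψ u) = Q (i, u) := by
      refine ⟨fun q => if h : ∃ u, ({u} : Finset V) ∈ S ∧ ψ u = q.2 then Q (q.1, h.choose) else 0, ?_⟩
      intro i u hu
      have hex : ∃ u', ({u'} : Finset V) ∈ S ∧ ψ u' = ψ u := ⟨u, hu, rfl⟩
      show (if h : ∃ u', ({u'} : Finset V) ∈ S ∧ ψ u' = ψ u then Q (i, h.choose) else 0) = _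
      rw [dif_pos hex, hψ _ _ hex.choose_spec.1 hu hex.choose_spec.2]
    have h4 := congrArg (MvPolynomial.eval c) h0
    rw [eval_aeval, map_zero] at h4
    rw [← h4]
    congr 2
    funext q
    obtain ⟨i, u⟩ := q
    rw [hg]
    by_cases hu : ({u} : Finset V) ∈ S
    · rw [if_pos hu, MvPolynomial.eval_X, hc i u hu]
    · rw [if_neg hu, MvPolynomial.eval_C]
  · intro c hc z hz
    rw [eval_aeval] at hc
    obtain ⟨X, hX, hX'⟩ := h _ hc (fun u => z (ψ u)) fun u v huv => by
      have hu : ({u} : Finset V) ∈ S := hS _ huv _ (by simp)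
      have hv : ({v} : Finset V) ∈ S := hS _ huv _ (by simp)
      simp only [hg, if_pos hu, if_pos hv, MvPolynomial.eval_X]
      exact hz (ψ u) (ψ v) (h1 u v huv)
    refine ⟨X, hX, fun w hw => ?_⟩
    obtain ⟨u, hu, rfl⟩ := h2 w hw
    have h5 := hX' u hu
    simp only [hg, if_pos hu, MvPolynomial.eval_X] at h5
    exact h5

end Pool.Agent.H128.Rg
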