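import Mathlib

set_option autoImplicit false
set_option linter.unusedSectionVars false

/-! Rigidity of vector configurations. Definitions. -/

namespace Pool.Agent.H128.Rg

variable {V : Type} [Fintype V] [DecidableEq V] {K : Type} [Field K] {m n : ℕ}

/-- `z` is an infinitesimal motion of the vectors `P v`, for the graph of `S`: for all `u, v` with `{u, v} ∈ S` (also for
`u = v`) the equation `⟪z u, P v⟫ + ⟪z v, P u⟫ = 0` holds. -/
def Motion (S : Finset (Finset V)) (P z : V → Fin m → K) : Prop :=
  ∀ u v, ({u, v} : Finset V) ∈ S → ∑ i, (z u i * P v i + z v i * P u i) = 0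

/-- Every motion is given by a skew-symmetric matrix. -/
def Rigid (S : Finset (Finset V)) (P : V → Fin m → K) : Prop :=
  ∀ z, Motion S P z → ∃ X : Matrix (Fin m) (Fin m) K, X.transpose = -X ∧
    ∀ v, ({v} : Finset V) ∈ S → z v = X.mulVec (P v)

/-- The property `A` holds outside a proper hypersurface. -/
def Gen {σ : Type} (A : (σ → K) → Prop) : Prop :=
  ∃ f : MvPolynomial σ K, f ≠ 0 ∧ ∀ c : σ → K, MvPolynomial.eval c f ≠ 0 → A c

/-- Generic vectors in `K^m` are rigid. -/
def GenRigid (K : Type) [Field K] (S : Finset (Finset V)) (m : ℕ) : Prop :=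
  Gen (K := K) fun c : Fin m × V → K => Rigid S fun v i => c (i, v)

/-- The link of the vertex `v`. -/
def link (S : Finset (Finset V)) (v : V) : Finset (Finset V) :=
  S.filter fun σ => v ∉ σ ∧ insert v σ ∈ S

/-- Contraction of the edge `{a, c}`: `c` is replaced by `a`. -/
def contract (S : Finset (Finset V)) (a c : V) : Finset (Finset V) :=
  S.image fun σ => if c ∈ σ then insert a (σ.erase c) else σ

/-- `S` is closed under subsets. -/
def Down (S : Finset (Finset V)) : Prop := ∀ F ∈ S, ∀ G ⊆ F, G ∈ S

/-- The boundary complex of the cross-polytope of dimension `5`; the antipode of the vertex `i < 5` is `i + 5`. -/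
def cross : Finset (Finset (Fin 10)) :=
  Finset.univ.filter fun σ => ∀ i ∈ σ, ∀ j ∈ σ, (j : ℕ) ≠ (i : ℕ) + 5

end Pool.Agent.H128.Rg
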