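import Pool.Agent.H128.Rg.Stars

set_option autoImplicit false
set_option linter.unusedSectionVars false

/-! Rigidity for relations; chain complexes. Definitions. -/

namespace Pool.Agent.H128.Rg

/-- rigidity for a relation `R` (symmetric, reflexive on its vertices `R v v`) instead of a complex -/
def GR (K : Type) [Field K] {V : Type} [Fintype V] [DecidableEq V] (R : V → V → Prop) (m : ℕ) : Prop :=
  Gen (K := K) fun c : Fin m × V → K => ∀ z : V → Fin m → K,
    (∀ u v, R u v → ∑ i, (z u i * c (i, v) + z v i * c (i, u)) = 0) →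
    ∃ X : Matrix (Fin m) (Fin m) K, X.transpose = -X ∧ ∀ v, R v v → z v = X.mulVec (fun i => c (i, v))

/-- comparability of the proper nonempty subsets of a set with 5 elements, encoded by bit masks `1, ..., 30` -/
def R0 (u v : Fin 32) : Prop :=
  (1 ≤ u.val ∧ u.val ≤ 30) ∧ (1 ≤ v.val ∧ v.val ≤ 30) ∧ (u.val &&& v.val = u.val ∨ u.val &&& v.val = v.val)

/-- chains of elements of `F` -/
def chains {W : Type} [Fintype W] [DecidableEq W] (F : Finset (Finset W)) : Finset (Finset (Finset W)) :=
  F.powerset.filter fun s => ∀ σ ∈ s, ∀ τ ∈ s, σ ⊆ τ ∨ τ ⊆ σ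

end Pool.Agent.H128.Rg
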