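import Pool.Agent.H128.Rg.Defs3

set_option autoImplicit false
set_option linter.unusedSectionVars false

/-! Barycentric subdivisions (project Rg of helper128, W9). -/

namespace Pool.Agent.H307.RgW9

open Pool.Agent.H128.Rg

variable {W : Type} [Fintype W] [DecidableEq W] {K : Type} [Field K] [CharZero K] {d : ℕ}

/-- proper nonempty subsets -/
def PN (s : Finset W) : Finset (Finset W) := s.powerset.filter fun t => t.Nonempty ∧ t ≠ s

lemma mem_PN {s t : Finset W} : t ∈ PN s ↔ t ⊆ s ∧ t.Nonempty ∧ t ≠ s := by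
  rw [PN, Finset.mem_filter, Finset.mem_powerset]

lemma mem_chains {F : Finset (Finset W)} {σ : Finset (Finset W)} :
    σ ∈ chains F ↔ σ ⊆ F ∧ ∀ a ∈ σ, ∀ b ∈ σ, a ⊆ b ∨ b ⊆ a := by
  rw [chains, Finset.mem_filter, Finset.mem_powerset]

lemma down_chains (F : Finset (Finset W)) : Down (chains F) := by
  intro σ hσ τ hτ
  rw [mem_chains] at hσ ⊢
  exact ⟨hτ.trans hσ.1, fun a ha b hb => hσ.2 a (hτ ha) b (hτ hb)⟩

lemma single_mem {F : Finset (Finset W)} {a : Finset W} :
    ({a} : Finset (Finset W)) ∈ chains F ↔ a ∈ F := by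
  rw [mem_chains]
  simp

lemma pair_mem {F : Finset (Finset W)} {a b : Finset W} :
    ({a, b} : Finset (Finset W)) ∈ chains F ↔ (a ∈ F ∧ b ∈ F) ∧ (a ⊆ b ∨ b ⊆ a) := by
  rw [mem_chains]
  constructor
  · rintro ⟨h1, h2⟩
    exact ⟨⟨h1 (by simp), h1 (by simp)⟩, h2 a (by simp) b (by simp)⟩
  · rintro ⟨⟨h1, h2⟩, h3⟩
    refine ⟨?_, ?_⟩
    · intro x hx
      simp only [Finset.mem_insert, Finset.mem_singleton] at hx
      rcases hx with rfl | rfl <;> assumption
    · intro x hx y hy
      simp only [Finset.mem_insert, Finset.mem_singleton] at hx hy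
      rcases hx with rfl | rfl <;> rcases hy with rfl | rfl
      · exact Or.inl (Finset.Subset.refl _)
      · exact h3
      · exact h3.symm
      · exact Or.inl (Finset.Subset.refl _)

lemma link_chains {F : Finset (Finset W)} (h0 : ∅ ∉ F) (v : Finset W) (hv : v ∈ F)
    (hmax : ∀ u ∈ F, v ⊆ u → u = v) (hdn : ∀ u : Finset W, u.Nonempty → u ⊆ v → u ∈ F) :
    link (chains F) v = chains (PN v) := by
  ext σ
  rw [link, Finset.mem_filter, mem_chains, mem_chains, mem_chains]
  constructor
  · rintro ⟨⟨h1, h2⟩, h3, h4, h5⟩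
    refine ⟨fun u hu => ?_, h2⟩
    have hu1 := h1 hu
    have hcmp := h5 v (Finset.mem_insert_self _ _) u (Finset.mem_insert_of_mem hu)
    have huv : u ≠ v := fun h => h3 (h ▸ hu)
    have hsub : u ⊆ v := by
      rcases hcmp with h | h
      · exact absurd (hmax u hu1 h) huv
      · exact h
    rw [mem_PN]
    refine ⟨hsub, ?_, huv⟩
    rw [Finset.nonempty_iff_ne_empty]
    rintro rfl
    exact h0 hu1
  · rintro ⟨h1, h2⟩
    have h1' : ∀ u ∈ σ, u ⊆ v ∧ u.Nonempty ∧ u ≠ v := fun u hu => mem_PN.1 (h1 hu)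
    have h1F : ∀ u ∈ σ, u ∈ F := fun u hu => hdn u (h1' u hu).2.1 (h1' u hu).1
    refine ⟨⟨h1F, h2⟩, fun h => (h1' v h).2.2 rfl, ?_, ?_⟩
    · intro u hu
      rcases Finset.mem_insert.1 hu with rfl | hu
      · exact hv
      · exact h1F u hu
    · intro a ha b hb
      rcases Finset.mem_insert.1 ha with ha' | ha' <;> rcases Finset.mem_insert.1 hb with hb' | hb'
      · rw [ha', hb']
        exact Or.inl (Finset.Subset.refl _)
      · rw [ha']
        exact Or.inr (h1' b hb').1
      · rw [hb']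
        exact Or.inl (h1' a ha').1
      · exact h2 a ha' b hb'

lemma two_pow_ge (k : ℕ) : 5 + k + 3 ≤ 2 ^ (5 + k - 1) := by
  have h : 5 + k - 1 = k + 4 := by omega
  rw [h]
  clear h
  induction k with
  | zero => norm_num
  | succ k ih =>
    rw [show k + 1 + 4 = (k + 4) + 1 from by ring, pow_succ]
    omega

lemma glue (F : Finset (Finset W)) (h0 : ∅ ∉ F)
    (hdn : ∀ v ∈ F, ∀ u : Finset W, u.Nonempty → u ⊆ v → u ∈ F) (hd : 5 ≤ d)
    (hdim : ∀ u ∈ F, ∃ v ∈ F, u ⊆ v ∧ v.card = d)
    (hsc : ∀ v ∈ F, ∀ w ∈ F, v.card = d → w.card = d →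
      Relation.ReflTransGen (fun A B => B ∈ F ∧ B.card = d ∧ (A ∩ B).card + 1 = d) v w)
    (hA : ∀ v ∈ F, v.card = d → GenRigid K (chains (PN v)) (d + 1)) :
    GenRigid K (chains F) (d + 2) := by
  have hmax : ∀ v ∈ F, v.card = d → ∀ u ∈ F, v ⊆ u → u = v := by
    intro v hv hvd u hu hvu
    obtain ⟨w, hw, huw, hwd⟩ := hdim u hu
    have h1 : v = w := Finset.eq_of_subset_of_card_le (hvu.trans huw) (by omega)
    subst h1
    exact Finset.Subset.antisymm huw hvu
  refine gen_stars (m := d + 1) (chains F) (down_chains F) (F.filter fun v => v.card = d) ?_ ?_ ?_ ?_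
  · intro v hv
    rw [Finset.mem_filter] at hv
    rw [link_chains h0 v hv.1 (hmax v hv.1 hv.2) (hdn v hv.1)]
    exact hA v hv.1 hv.2
  · intro v hv
    rw [Finset.mem_filter] at hv
    exact single_mem.2 hv.1
  · intro u hu
    rw [single_mem] at hu
    obtain ⟨v, hv, huv, hvd⟩ := hdim u hu
    exact ⟨v, Finset.mem_filter.2 ⟨hv, hvd⟩, pair_mem.2 ⟨⟨hv, hu⟩, Or.inr huv⟩⟩
  · intro v hv w hw
    rw [Finset.mem_filter] at hv hw
    have key : ∀ w, Relation.ReflTransGen
        (fun A B => B ∈ F ∧ B.card = d ∧ (A ∩ B).card + 1 = d) v w →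
        (w ∈ F ∧ w.card = d) ∧ Relation.ReflTransGen (fun a b =>
          b ∈ F.filter (fun v => v.card = d) ∧ d + 1 + 1 ≤ (common (chains F) a b).card) v w := by
      intro w hw
      induction hw with
      | refl => exact ⟨hv, Relation.ReflTransGen.refl⟩
      | tail _ hab ih =>
        rename_i a b _
        refine ⟨⟨hab.1, hab.2.1⟩, ih.2.tail ⟨Finset.mem_filter.2 ⟨hab.1, hab.2.1⟩, ?_⟩⟩
        have hsub : ((a ∩ b).powerset.erase ∅) ⊆ common (chains F) a b := by
          intro t ht
          rw [Finset.mem_erase, Finset.mem_powerset] at ht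
          rw [common, Finset.mem_filter]
          have hne : t.Nonempty := Finset.nonempty_iff_ne_empty.2 ht.1
          have hta : t ⊆ a := ht.2.trans Finset.inter_subset_left
          have htb : t ⊆ b := ht.2.trans Finset.inter_subset_right
          exact ⟨Finset.mem_univ _,
            pair_mem.2 ⟨⟨ih.1.1, hdn a ih.1.1 t hne hta⟩, Or.inr hta⟩,
            pair_mem.2 ⟨⟨hab.1, hdn b hab.1 t hne htb⟩, Or.inr htb⟩⟩
        have h1 := Finset.card_le_card hsub
        rw [Finset.card_erase_of_mem (Finset.empty_mem_powerset _), Finset.card_powerset] at h1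
        have h2 : (a ∩ b).card = d - 1 := by have := hab.2.2; omega
        rw [h2] at h1
        have h3 : d + 3 ≤ 2 ^ (d - 1) := by
          obtain ⟨k, rfl⟩ := Nat.exists_eq_add_of_le hd
          exact two_pow_ge k
        omega
    exact (key w (hsc v hv.1 w hw.1 hv.2 hw.2)).2

/-- the set of a bit mask -/
def bits (u : Fin 32) : Finset (Fin 5) := Finset.univ.filter fun i => u.val.testBit i.val = true

lemma bits_inj : Function.Injective bits := by
  have h : ∀ u v : Fin 32, bits u = bits v → u = v := by decide +kernel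
  exact fun u v => h u v

lemma bits_bij : Function.Bijective bits :=
  (Fintype.bijective_iff_injective_and_card bits).2 ⟨bits_inj, by simp⟩

lemma bits_mid : ∀ u : Fin 32, (1 ≤ u.val ∧ u.val ≤ 30) ↔ bits u ≠ ∅ ∧ bits u ≠ Finset.univ := by
  decide +kernel

lemma bits_cmp : ∀ u v : Fin 32, (u.val &&& v.val = u.val ∨ u.val &&& v.val = v.val) →
    bits u ⊆ bits v ∨ bits v ⊆ bits u := by
  decide +kernel

lemma base (h5 : GR K R0 6) (s : Finset W) (hs : s.card = 5) :
    GenRigid K (chains (PN s)) 6 := by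
  have ψ : Fin 5 ≃ s := (Finset.equivFinOfCardEq hs).symm
  let j : Fin 5 ↪ W := ⟨fun i => (ψ i : W), fun a b h => ψ.injective (Subtype.ext h)⟩
  have hj : ∀ i, j i ∈ s := fun i => (ψ i).2
  have hjs : ∀ x ∈ s, ∃ i, j i = x := fun x hx => ⟨ψ.symm ⟨x, hx⟩, by simp [j]⟩
  let g : Fin 32 → Finset W := fun u => (bits u).map j
  have hg : Function.Injective g := fun u v h => bits_inj (Finset.map_injective j h)
  have hgs : ∀ u, g u ⊆ s := by
    intro u x hx
    obtain ⟨i, -, rfl⟩ := Finset.mem_map.1 hx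
    exact hj i
  have huniv : (Finset.univ : Finset (Fin 5)).map j = s := by
    ext x
    rw [Finset.mem_map]
    constructor
    · rintro ⟨i, -, rfl⟩
      exact hj i
    · intro hx
      obtain ⟨i, hi⟩ := hjs x hx
      exact ⟨i, Finset.mem_univ _, hi⟩
  have hgPN : ∀ u, g u ∈ PN s ↔ (1 ≤ u.val ∧ u.val ≤ 30) := by
    intro u
    rw [mem_PN, bits_mid]
    constructor
    · rintro ⟨-, h1, h2⟩
      refine ⟨?_, ?_⟩
      · intro h
        rw [Finset.nonempty_iff_ne_empty] at h1
        apply h1
        show (bits u).map j = ∅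
        rw [h, Finset.map_empty]
      · intro h
        apply h2
        show (bits u).map j = s
        rw [h, huniv]
    · rintro ⟨h1, h2⟩
      refine ⟨hgs u, ?_, ?_⟩
      · show ((bits u).map j).Nonempty
        rw [Finset.map_nonempty, Finset.nonempty_iff_ne_empty]
        exact h1
      · intro h
        apply h2
        have h3 : (bits u).map j = (Finset.univ : Finset (Fin 5)).map j := by
          rw [huniv]
          exact h
        exact Finset.map_injective j h3
  have hsur : ∀ v ∈ PN s, ∃ u, (1 ≤ u.val ∧ u.val ≤ 30) ∧ g u = v := by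
    intro v hv
    obtain ⟨u, hu⟩ := bits_bij.2 (Finset.univ.filter fun i => j i ∈ v)
    have hgu : g u = v := by
      show (bits u).map j = v
      rw [hu]
      ext x
      simp only [Finset.mem_map, Finset.mem_filter, Finset.mem_univ, true_and]
      constructor
      · rintro ⟨i, hi, rfl⟩
        exact hi
      · intro hx
        obtain ⟨i, hi⟩ := hjs x ((mem_PN.1 hv).1 hx)
        exact ⟨i, by rw [hi]; exact hx, hi⟩
    refine ⟨u, ?_, hgu⟩
    rw [← hgPN, hgu]
    exact hv
  obtain ⟨f, hf, hf2⟩ := h5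
  let k : Fin 6 × Fin 32 → Fin 6 × Finset W := fun q => (q.1, g q.2)
  have hk : Function.Injective k := by
    rintro ⟨a, b⟩ ⟨a', b'⟩ h
    have h1 : a = a' := congrArg Prod.fst h
    have h2 : g b = g b' := congrArg Prod.snd h
    rw [h1, hg h2]
  refine ⟨MvPolynomial.rename k f, ?_, ?_⟩
  · intro h
    apply hf
    apply MvPolynomial.rename_injective k hk
    rw [h, map_zero]
  · intro c hc z hz
    rw [MvPolynomial.eval_rename] at hc
    obtain ⟨X, hX, hX2⟩ := hf2 (c ∘ k) hc (fun u => z (g u)) (by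
      rintro u v ⟨hu, hv, huv⟩
      have h1 : ({g u, g v} : Finset (Finset W)) ∈ chains (PN s) := by
        refine pair_mem.2 ⟨⟨(hgPN u).2 hu, (hgPN v).2 hv⟩, ?_⟩
        rcases bits_cmp u v huv with h | h
        · exact Or.inl (Finset.map_subset_map.2 h)
        · exact Or.inr (Finset.map_subset_map.2 h)
      exact hz _ _ h1)
    refine ⟨X, hX, fun v hv => ?_⟩
    obtain ⟨u, hu, rfl⟩ := hsur v (single_mem.1 hv)
    exact hX2 u ⟨hu, hu, Or.inl (Nat.and_self _)⟩

lemma stepA (h5 : GR K R0 6) : ∀ (e : ℕ) (s : Finset W), s.card = e + 5 →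
    GenRigid K (chains (PN s)) (e + 6) := by
  intro e
  induction e with
  | zero =>
    intro s hs
    exact base h5 s (by omega)
  | succ e ih =>
    intro s hs
    have hfac : ∀ v ∈ PN s, v.card = e + 5 → ∃ x ∈ s, v = s.erase x := by
      intro v hv hvc
      obtain ⟨h1, -, h3⟩ := mem_PN.1 hv
      have h4 : (s \ v).card = 1 := by
        rw [Finset.card_sdiff_of_subset h1]
        omega
      obtain ⟨x, hx⟩ := Finset.card_eq_one.1 h4
      have hxs : x ∈ s \ v := by
        rw [hx]
        exact Finset.mem_singleton_self x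
      rw [Finset.mem_sdiff] at hxs
      refine ⟨x, hxs.1, ?_⟩
      apply Finset.eq_of_subset_of_card_le
      · intro y hy
        rw [Finset.mem_erase]
        exact ⟨fun h => hxs.2 (h ▸ hy), h1 hy⟩
      · rw [Finset.card_erase_of_mem hxs.1]
        omega
    have herase : ∀ x ∈ s, s.erase x ∈ PN s ∧ (s.erase x).card = e + 5 := by
      intro x hx
      have hc : (s.erase x).card = e + 5 := by
        rw [Finset.card_erase_of_mem hx]
        omega
      refine ⟨mem_PN.2 ⟨Finset.erase_subset _ _, ?_, ?_⟩, hc⟩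
      · rw [← Finset.card_pos]
        omega
      · intro h
        rw [h] at hc
        omega
    have hgl : GenRigid K (chains (PN s)) (e + 5 + 2) := by
      refine glue (d := e + 5) (PN s) ?_ ?_ (by omega) ?_ ?_ ?_
      · intro h
        have := (mem_PN.1 h).2.1
        simp at this
      · intro v hv u hu huv
        rw [mem_PN] at hv ⊢
        refine ⟨huv.trans hv.1, hu, ?_⟩
        intro h
        apply hv.2.2
        rw [h] at huv
        exact Finset.Subset.antisymm hv.1 huv
      · intro u hu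
        obtain ⟨h1, h2, h3⟩ := mem_PN.1 hu
        obtain ⟨x, hx, hxu⟩ : ∃ x ∈ s, x ∉ u := by
          by_contra hcon
          push Not at hcon
          exact h3 (Finset.Subset.antisymm h1 hcon)
        refine ⟨s.erase x, (herase x hx).1, ?_, (herase x hx).2⟩
        intro y hy
        rw [Finset.mem_erase]
        exact ⟨fun h => hxu (h ▸ hy), h1 hy⟩
      · intro v hv w hw hvc hwc
        obtain ⟨x, hx, rfl⟩ := hfac v hv hvc
        obtain ⟨y, hy, rfl⟩ := hfac w hw hwc
        by_cases hxy : x = y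
        · subst hxy
          exact Relation.ReflTransGen.refl
        · refine Relation.ReflTransGen.single ⟨hw, hwc, ?_⟩
          have h1 : s.erase x ∩ s.erase y = (s.erase x).erase y := by
            ext t
            simp only [Finset.mem_inter, Finset.mem_erase]
            tauto
          rw [h1, Finset.card_erase_of_mem (Finset.mem_erase.2 ⟨fun h => hxy h.symm, hy⟩), hvc]
          omega
      · intro v hv hvc
        exact ih v hvc
    exact hgl

theorem sd_rigid {W : Type} [Fintype W] [DecidableEq W] (Kc : Finset (Finset W)) (hK : Down Kc)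
    (hd : 5 ≤ d)
    (hdim : ∀ F ∈ Kc, ∃ G ∈ Kc, F ⊆ G ∧ G.card = d)
    (hsc : ∀ F ∈ Kc, ∀ G ∈ Kc, F.card = d → G.card = d →
      Relation.ReflTransGen (fun A B => B ∈ Kc ∧ B.card = d ∧ (A ∩ B).card + 1 = d) F G)
    (h5 : GR K R0 6) : GenRigid K (chains (Kc.filter fun F => F.Nonempty)) (d + 2) := by
  have hne : ∀ F : Finset W, F.card = d → F.Nonempty := by
    intro F hF
    rw [← Finset.card_pos]
    omega
  refine glue (Kc.filter fun F => F.Nonempty) ?_ ?_ hd ?_ ?_ ?_
  · intro h
    have := (Finset.mem_filter.1 h).2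
    simp at this
  · intro v hv u hu huv
    rw [Finset.mem_filter] at hv ⊢
    exact ⟨hK v hv.1 u huv, hu⟩
  · intro u hu
    rw [Finset.mem_filter] at hu
    obtain ⟨G, hG, huG, hGd⟩ := hdim u hu.1
    exact ⟨G, Finset.mem_filter.2 ⟨hG, hne G hGd⟩, huG, hGd⟩
  · intro v hv w hw hvd hwd
    rw [Finset.mem_filter] at hv hw
    have h1 : ∀ w, Relation.ReflTransGen (fun A B => B ∈ Kc ∧ B.card = d ∧
        (A ∩ B).card + 1 = d) v w → Relation.ReflTransGen (fun A B =>
        B ∈ Kc.filter (fun F => F.Nonempty) ∧ B.card = d ∧ (A ∩ B).card + 1 = d) v w := by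
      intro w hw
      induction hw with
      | refl => exact Relation.ReflTransGen.refl
      | tail _ hab ih =>
        exact ih.tail ⟨Finset.mem_filter.2 ⟨hab.1, hne _ hab.2.1⟩, hab.2.1, hab.2.2⟩
    exact h1 w (hsc v hv.1 w hw.1 hvd hwd)
  · intro v hv hvd
    obtain ⟨k, rfl⟩ := Nat.exists_eq_add_of_le hd
    have h1 := stepA (K := K) h5 k v (by omega)
    have h2 : k + 6 = 5 + k + 1 := by omega
    rw [h2] at h1
    exact h1

end Pool.Agent.H307.RgW9
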