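import Pool.Agent.H128.Rg.Cls
import Pool.Agent.H128.Rg.W8
import Pool.Agent.H128.Rg.W9

set_option autoImplicit false
set_option linter.unusedSectionVars false

/-! Complexes with generically rigid graphs: a class. -/

namespace Pool.Agent.H128.Rg

/-- `S` is the barycentric subdivision of the complex `Kc`: its vertices correspond to the nonempty faces of `Kc`, its
faces to the chains. -/
def IsBarycentric {n N : ℕ} (S : Finset (Finset (Fin n))) (Kc : Finset (Finset (Fin N))) : Prop :=
  ∃ φ : Fin n ≃ {F : Finset (Fin N) // F ∈ Kc ∧ F.Nonempty},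
    ∀ σ, σ ∈ S ↔ ∀ u ∈ σ, ∀ v ∈ σ, (φ u).1 ⊆ (φ v).1 ∨ (φ v).1 ⊆ (φ u).1

/-- `Kc` is a strongly connected complex of dimension `d - 1`: all its faces are in facets with `d` elements, and every
two facets are connected by a chain of facets such that neighbors have `d - 1` common elements. -/
def StronglyConnected {N : ℕ} (d : ℕ) (Kc : Finset (Finset (Fin N))) : Prop :=
  Down Kc ∧ (∀ F ∈ Kc, ∃ G ∈ Kc, F ⊆ G ∧ G.card = d) ∧
    ∀ F ∈ Kc, ∀ G ∈ Kc, F.card = d → G.card = d →
      Relation.ReflTransGen (fun A B => B ∈ Kc ∧ B.card = d ∧ (A ∩ B).card + 1 = d) F G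

/-- A class of complexes; `d` stands for the dimension plus `1`. -/
inductive Good : ∀ {n : ℕ}, ℕ → Finset (Finset (Fin n)) → Prop
  /-- the boundary of the cross-polytope of dimension `5` -/
  | cross : Good 5 cross
  /-- the barycentric subdivision of the boundary of the simplex with `5` vertices, a sphere of dimension `3` -/
  | simplex {n : ℕ} (S : Finset (Finset (Fin n)))
      (hS : IsBarycentric S (Finset.univ.filter fun F : Finset (Fin 5) => F ≠ Finset.univ)) : Good 4 S
  /-- barycentric subdivisions of strongly connected complexes of dimension at least `4` -/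
  | barycentric {n N d : ℕ} (hd : 5 ≤ d) (S : Finset (Finset (Fin n))) (Kc : Finset (Finset (Fin N)))
      (hK : StronglyConnected d Kc) (hS : IsBarycentric S Kc) : Good d S
  /-- complexes whose graphs are generically rigid in dimension `d + 1` -/
  | rigid {n d : ℕ} (S : Finset (Finset (Fin n)))
      (h : ∀ (K : Type) [Field K] [CharZero K], GenRigid K S (d + 2)) : Good d S
  /-- local to global: the links of the vertices in a set `I` are in the class, every vertex is in one of the stars of the
  vertices of `I`, and these stars are connected to each other by chains in which neighbors have at least `d + 3` common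
  vertices. (For a flag sphere of dimension `d ≥ 4` and the set `I` of all its vertices the last two conditions hold.) -/
  | stars {n d : ℕ} (S : Finset (Finset (Fin n))) (hS : Down S) (I : Finset (Fin n))
      (h : ∀ v ∈ I, Good d (link S v)) (hIS : ∀ v ∈ I, ({v} : Finset (Fin n)) ∈ S)
      (hI : ∀ u, ({u} : Finset (Fin n)) ∈ S → ∃ v ∈ I, ({v, u} : Finset (Fin n)) ∈ S)
      (hc : ∀ v ∈ I, ∀ w ∈ I,
        Relation.ReflTransGen (fun a b => b ∈ I ∧ d + 3 ≤ (common S a b).card) v w) : Good (d + 1) S
  /-- the contraction of an edge `{a, c}` is in the class, and the edge has at least `d` common neighbors (the vertices in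
  `common S a c` different from `a`, `c`) -/
  | split {n d : ℕ} (S : Finset (Finset (Fin n))) (hS : Down S) (a c : Fin n) (hac : a ≠ c)
      (he : ({a, c} : Finset (Fin n)) ∈ S) (hL : d + 2 ≤ (common S a c).card)
      (hV : d + 3 ≤ (Finset.univ.filter fun u : Fin n => ({u} : Finset (Fin n)) ∈ S).card)
      (h : Good d (contract S a c)) : Good d S
  /-- complexes `S'` whose graph contains the graph of a complex `S` of the class, after renaming the vertices; the vertices
  must be the same -/
  | extend {n n' d : ℕ} (S : Finset (Finset (Fin n))) (S' : Finset (Finset (Fin n'))) (hS : Down S)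
      (ψ : Fin n → Fin n')
      (hψ : ∀ u v, ({u} : Finset (Fin n)) ∈ S → ({v} : Finset (Fin n)) ∈ S → ψ u = ψ v → u = v)
      (h1 : ∀ u v, ({u, v} : Finset (Fin n)) ∈ S → ({ψ u, ψ v} : Finset (Fin n')) ∈ S')
      (h2 : ∀ w, ({w} : Finset (Fin n')) ∈ S' → ∃ u, ({u} : Finset (Fin n)) ∈ S ∧ ψ u = w)
      (h : Good d S) : Good d S'

lemma gen_bary {K : Type} [Field K] [CharZero K] {n N m : ℕ} {S : Finset (Finset (Fin n))}
    {Kc : Finset (Finset (Fin N))} (hS : IsBarycentric S Kc)
    (h : GenRigid K (chains (Kc.filter fun F => F.Nonempty)) m) : GenRigid K S m := by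
  obtain ⟨φ, hφ⟩ := hS
  rw [genRigid_iff] at h ⊢
  have hpair : ∀ u v, ({u, v} : Finset (Fin n)) ∈ S ↔ (φ u).1 ⊆ (φ v).1 ∨ (φ v).1 ⊆ (φ u).1 := by
    intro u v
    rw [hφ]
    constructor
    · intro h
      exact h u (by simp) v (by simp)
    · intro h x hx y hy
      rw [Finset.mem_insert, Finset.mem_singleton] at hx hy
      rcases hx with rfl | rfl <;> rcases hy with rfl | rfl
      · exact Or.inl (Finset.Subset.refl _)
      · exact h
      · exact h.symm
      · exact Or.inl (Finset.Subset.refl _)
  have hch : ∀ A B : Finset (Fin N), ({A, B} : Finset (Finset (Fin N))) ∈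
      chains (Kc.filter fun F => F.Nonempty) ↔
        (A ∈ Kc ∧ A.Nonempty) ∧ (B ∈ Kc ∧ B.Nonempty) ∧ (A ⊆ B ∨ B ⊆ A) := by
    intro A B
    rw [chains, Finset.mem_filter, Finset.mem_powerset, Finset.insert_subset_iff,
      Finset.singleton_subset_iff, Finset.mem_filter, Finset.mem_filter]
    constructor
    · rintro ⟨⟨hA, hB⟩, h⟩
      exact ⟨hA, hB, h A (by simp) B (by simp)⟩
    · rintro ⟨hA, hB, h⟩
      refine ⟨⟨hA, hB⟩, fun x hx y hy => ?_⟩
      rw [Finset.mem_insert, Finset.mem_singleton] at hx hy
      rcases hx with rfl | rfl <;> rcases hy with rfl | rfl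
      · exact Or.inl (Finset.Subset.refl _)
      · exact h
      · exact h.symm
      · exact Or.inl (Finset.Subset.refl _)
  refine GR_transport (fun u => (φ u).1) (fun u v h => φ.injective (Subtype.ext h)) _ _ ?_ ?_ ?_ h
  · intro u v huv
    exact (hpair u v).2 ((hch _ _).1 huv).2.2
  · intro u _
    exact (hch _ _).2 ⟨(φ u).2, (φ u).2, Or.inl (Finset.Subset.refl _)⟩
  · intro A B hAB
    obtain ⟨hA, hB, -⟩ := (hch _ _).1 hAB
    exact ⟨φ.symm ⟨A, hA⟩, φ.symm ⟨B, hB⟩, by simp, by simp⟩

/-- the graphs of the complexes in the class are generically rigid -/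
theorem good_rigid {n d : ℕ} {S : Finset (Finset (Fin n))} (h : Good d S) (K : Type) [Field K] [CharZero K] :
    GenRigid K S (d + 2) := by
  induction h with
  | cross =>
    obtain ⟨P0, e, h1, h2⟩ := Pool.Agent.H877.Rg7.cross_rigid (K := K)
    refine Pool.Agent.H404.Rg.W2.gen_of_rigid cross ?_ P0 h1 e ?_ h2
    · intro u v huv
      rw [Rg.cross, Finset.mem_filter] at huv ⊢
      exact ⟨Finset.mem_univ _, fun i hi j hj => huv.2 i (by
        rw [Finset.mem_singleton] at hi; rw [hi]; simp) j (by
        rw [Finset.mem_singleton] at hj; rw [hj]; simp)⟩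
    · intro i
      rw [Rg.cross, Finset.mem_filter]
      refine ⟨Finset.mem_univ _, fun a ha b hb => ?_⟩
      rw [Finset.mem_singleton] at ha hb
      rw [ha, hb]
      omega
  | simplex S hS =>
    refine gen_bary hS ?_
    have h5 := Pool.Agent.H307.RgW9.base (K := K) Pool.Agent.H114.Rg5.h5 (Finset.univ : Finset (Fin 5)) rfl
    have he : (Finset.univ.filter fun F : Finset (Fin 5) => F ≠ Finset.univ).filter (fun F => F.Nonempty) =
        Pool.Agent.H307.RgW9.PN (Finset.univ : Finset (Fin 5)) := by
      ext F
      rw [Pool.Agent.H307.RgW9.mem_PN, Finset.mem_filter, Finset.mem_filter]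
      simp only [Finset.mem_univ, Finset.subset_univ, true_and]
      exact and_comm
    rw [he]
    exact h5
  | @barycentric n N d hd S Kc hK hS =>
    obtain ⟨h1, h2, h3⟩ := hK
    exact gen_bary hS (Pool.Agent.H307.RgW9.sd_rigid (K := K) Kc h1 hd h2 h3 Pool.Agent.H114.Rg5.h5)
  | rigid S h => exact h K
  | stars S hS I h hIS hI hc ih => exact gen_stars S hS I ih hIS hI hc
  | split S hS a c hac he hL hV h ih => exact gen_split S hS a c hac he hL hV ih
  | extend S S' hS ψ hψ h1 h2 h ih => exact gen_extend S S' hS ψ hψ h1 h2 ih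

end Pool.Agent.H128.Rg
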