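import Pool.Agent.H128.Rg.Defs

set_option autoImplicit false
set_option linter.unusedSectionVars false

/-! Rigidity at one point is generic. -/

namespace Pool.Agent.H404.Rg.W2

open Pool.Agent.H128.Rg

variable {V : Type} [Fintype V] [DecidableEq V] {K : Type} [Field K] [CharZero K] {m n d : ℕ}

/-- W6. A polynomial family of linear systems (`σ` parameters) which is injective at one point is injective outside a
hypersurface. -/
theorem gen_injective {σ ι κ : Type} [Fintype ι] [DecidableEq ι] [Fintype κ] [DecidableEq κ]
    (N : Matrix ι κ (MvPolynomial σ K)) (c0 : σ → K)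
    (h0 : ∀ x : κ → K, (N.map (MvPolynomial.eval c0)).mulVec x = 0 → x = 0) :
    Gen (K := K) fun c : σ → K => ∀ x : κ → K, (N.map (MvPolynomial.eval c)).mulVec x = 0 → x = 0 := by
  obtain ⟨g, hg⟩ := LinearMap.exists_leftInverse_of_injective (Matrix.toLin' (N.map (MvPolynomial.eval c0)))
    (by
      rw [LinearMap.ker_eq_bot']
      intro x hx
      exact h0 x (by rwa [Matrix.toLin'_apply] at hx))
  have hL : LinearMap.toMatrix' g * N.map (MvPolynomial.eval c0) = 1 := by
    have h1 := congrArg LinearMap.toMatrix' hg
    rw [LinearMap.toMatrix'_comp, LinearMap.toMatrix'_toLin', LinearMap.toMatrix'_id] at h1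
    exact h1
  have key : ∀ c : σ → K, MvPolynomial.eval c
      (((LinearMap.toMatrix' g).map (MvPolynomial.C : K →+* MvPolynomial σ K)) * N).det
        = (LinearMap.toMatrix' g * N.map (MvPolynomial.eval c)).det := by
    intro c
    rw [RingHom.map_det]
    have : (MvPolynomial.eval c).mapMatrix
        (((LinearMap.toMatrix' g).map (MvPolynomial.C : K →+* MvPolynomial σ K)) * N)
        = LinearMap.toMatrix' g * N.map (MvPolynomial.eval c) := by
      ext i j
      simp [Matrix.mul_apply]
    rw [this]
  refine ⟨(((LinearMap.toMatrix' g).map (MvPolynomial.C : K →+* MvPolynomial σ K)) * N).det, ?_, ?_⟩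
  · intro h
    have h1 := key c0
    rw [h, hL, Matrix.det_one, map_zero] at h1
    exact zero_ne_one h1
  · intro c hc x hx
    rw [key c] at hc
    refine Matrix.eq_zero_of_mulVec_eq_zero hc ?_
    rw [← Matrix.mulVec_mulVec, hx, Matrix.mulVec_zero]

/-- The linear system: the equations of a motion, the gauge rows, and `z v = 0` for `v` not in `S`. -/
noncomputable def sys (S : Finset (Finset V)) (e : Fin m → V) :
    Matrix ((V × V) ⊕ ((Fin m × Fin m) ⊕ (V × Fin m))) (V × Fin m) (MvPolynomial (Fin m × V) K) :=
  fun r w => match r with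
    | Sum.inl uv => if ({uv.1, uv.2} : Finset V) ∈ S then
        (if w.1 = uv.1 then MvPolynomial.X (w.2, uv.2) else 0) + (if w.1 = uv.2 then MvPolynomial.X (w.2, uv.1) else 0)
        else 0
    | Sum.inr (Sum.inl ij) => if ij.1 < ij.2 then (if w.1 = e ij.2 then MvPolynomial.X (w.2, e ij.1) else 0) else 0
    | Sum.inr (Sum.inr vk) => if ({vk.1} : Finset V) ∈ S then 0 else if w = vk then 1 else 0

theorem sys_inl (S : Finset (Finset V)) (e : Fin m → V) (c : Fin m × V → K) (x : V × Fin m → K) (u v : V) :
    ((sys (K := K) S e).map (MvPolynomial.eval c)).mulVec x (Sum.inl (u, v))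
      = if ({u, v} : Finset V) ∈ S then ∑ k, (x (u, k) * c (k, v) + x (v, k) * c (k, u)) else 0 := by
  simp only [Matrix.mulVec, dotProduct, Matrix.map_apply, sys]
  split_ifs with h
  · rw [Fintype.sum_prod_type_right]
    refine Finset.sum_congr rfl fun k _ => ?_
    simp only [map_add, add_mul, Finset.sum_add_distrib]
    have h1 : ∀ w : V, (MvPolynomial.eval c) (if w = u then (MvPolynomial.X (k, v) : MvPolynomial (Fin m × V) K) else 0)
        * x (w, k) = if w = u then x (u, k) * c (k, v) else 0 := by
      intro w
      split_ifs with h2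
      · subst h2; simp [mul_comm]
      · simp
    have h3 : ∀ w : V, (MvPolynomial.eval c) (if w = v then (MvPolynomial.X (k, u) : MvPolynomial (Fin m × V) K) else 0)
        * x (w, k) = if w = v then x (v, k) * c (k, u) else 0 := by
      intro w
      split_ifs with h2
      · subst h2; simp [mul_comm]
      · simp
    rw [Finset.sum_congr rfl fun w _ => h1 w, Finset.sum_congr rfl fun w _ => h3 w]
    simp
  · simp

theorem sys_inrl (S : Finset (Finset V)) (e : Fin m → V) (c : Fin m × V → K) (x : V × Fin m → K) (i j : Fin m) :
    ((sys (K := K) S e).map (MvPolynomial.eval c)).mulVec x (Sum.inr (Sum.inl (i, j)))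
      = if i < j then ∑ k, x (e j, k) * c (k, e i) else 0 := by
  simp only [Matrix.mulVec, dotProduct, Matrix.map_apply, sys]
  split_ifs with h
  · rw [Fintype.sum_prod_type_right]
    refine Finset.sum_congr rfl fun k _ => ?_
    have h1 : ∀ w : V, (MvPolynomial.eval c)
        (if w = e j then (MvPolynomial.X (k, e i) : MvPolynomial (Fin m × V) K) else 0)
        * x (w, k) = if w = e j then x (e j, k) * c (k, e i) else 0 := by
      intro w
      split_ifs with h2
      · subst h2; simp [mul_comm]
      · simp
    rw [Finset.sum_congr rfl fun w _ => h1 w]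
    simp
  · simp

theorem sys_inrr (S : Finset (Finset V)) (e : Fin m → V) (c : Fin m × V → K) (x : V × Fin m → K) (v : V) (k : Fin m) :
    ((sys (K := K) S e).map (MvPolynomial.eval c)).mulVec x (Sum.inr (Sum.inr (v, k)))
      = if ({v} : Finset V) ∈ S then 0 else x (v, k) := by
  simp only [Matrix.mulVec, dotProduct, Matrix.map_apply, sys]
  split_ifs with h
  · simp
  · have h1 : ∀ w : V × Fin m, (MvPolynomial.eval c) (if w = (v, k) then (1 : MvPolynomial (Fin m × V) K) else 0)
        * x w = if w = (v, k) then x (v, k) else 0 := by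
      intro w
      split_ifs with h2
      · subst h2; simp
      · simp
    rw [Finset.sum_congr rfl fun w _ => h1 w]
    simp

/-- The bilinear form of `X` at the vectors of the configuration. -/
theorem form_eq (X : Matrix (Fin m) (Fin m) K) (P : V → Fin m → K) (e : Fin m → V) (i j : Fin m) :
    (Matrix.of (fun i j => P (e i) j) * X * (Matrix.of (fun i j => P (e i) j)).transpose) i j
      = ∑ k, X.mulVec (P (e j)) k * P (e i) k := by
  rw [Matrix.mul_assoc, Matrix.mul_apply]
  refine Finset.sum_congr rfl fun k _ => ?_
  rw [mul_comm]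
  simp [Matrix.mul_apply, Matrix.mulVec, dotProduct]

theorem skew_form (X : Matrix (Fin m) (Fin m) K) (hX : X.transpose = -X) (a b : Fin m → K) :
    ∑ k, (X.mulVec a k * b k + X.mulVec b k * a k) = 0 := by
  rw [Finset.sum_add_distrib]
  have h1 : ∑ k, X.mulVec b k * a k = ∑ k, X.transpose.mulVec a k * b k := by
    have : ∀ (Z : Matrix (Fin m) (Fin m) K) (p q : Fin m → K), ∑ k, Z.mulVec p k * q k = dotProduct (Z.mulVec p) q := by
      intro Z p q; rfl
    rw [this, this, Matrix.mulVec_transpose, dotProduct_comm, Matrix.dotProduct_mulVec]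
  rw [h1, hX]
  simp [Matrix.neg_mulVec]

/-- W2. -/
theorem gen_of_rigid (S : Finset (Finset V)) (hd : ∀ u v, ({u, v} : Finset V) ∈ S → ({u} : Finset V) ∈ S)
    (P0 : V → Fin m → K) (h : Rigid S P0) (e : Fin m → V)
    (he : ∀ i, ({e i} : Finset V) ∈ S) (hdet : (Matrix.of fun i j => P0 (e i) j).det ≠ 0) : GenRigid K S m := by
  have hd' : ∀ u v, ({u, v} : Finset V) ∈ S → ({v} : Finset V) ∈ S := by
    intro u v huv
    refine hd v u ?_
    rwa [Finset.pair_comm]
  -- the system is injective at `P0`
  have inj0 : ∀ x : V × Fin m → K,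
      ((sys (K := K) S e).map (MvPolynomial.eval fun p : Fin m × V => P0 p.2 p.1)).mulVec x = 0 → x = 0 := by
    intro x hx
    have e1 : Motion S P0 (fun v k => x (v, k)) := by
      intro u v huv
      have := congrFun hx (Sum.inl (u, v))
      rw [sys_inl, if_pos huv] at this
      exact this
    obtain ⟨X, hX, hX2⟩ := h _ e1
    have hform : Matrix.of (fun i j => P0 (e i) j) * X * (Matrix.of (fun i j => P0 (e i) j)).transpose = 0 := by
      have hs : ∀ i j, ∑ k, X.mulVec (P0 (e j)) k * P0 (e i) k = - ∑ k, X.mulVec (P0 (e i)) k * P0 (e j) k := by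
        intro i j
        have := skew_form X hX (P0 (e j)) (P0 (e i))
        rw [Finset.sum_add_distrib] at this
        exact eq_neg_of_add_eq_zero_left this
      have hlt : ∀ i j, i < j → ∑ k, X.mulVec (P0 (e j)) k * P0 (e i) k = 0 := by
        intro i j hij
        have := congrFun hx (Sum.inr (Sum.inl (i, j)))
        rw [sys_inrl, if_pos hij] at this
        rw [← hX2 (e j) (he j)]
        exact this
      ext i j
      rw [form_eq, Matrix.zero_apply]
      rcases lt_trichotomy i j with hij | hij | hij
      · exact hlt i j hij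
      · subst hij
        have := hs i i
        have h2 : (2 : K) * ∑ k, X.mulVec (P0 (e i)) k * P0 (e i) k = 0 := by
          rw [two_mul]
          nth_rewrite 1 [this]
          exact neg_add_cancel _
        exact (mul_eq_zero.mp h2).resolve_left two_ne_zero
      · rw [hs, hlt j i hij, neg_zero]
    have hX0 : X = 0 := by
      have hu : IsUnit (Matrix.of fun i j => P0 (e i) j).det := isUnit_iff_ne_zero.mpr hdet
      have hu' : IsUnit (Matrix.of fun i j => P0 (e i) j).transpose.det := by
        rw [Matrix.det_transpose]; exact hu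
      have h1 : Matrix.of (fun i j => P0 (e i) j) * X = 0 := by
        have := congrArg (fun Z => Z * (Matrix.of (fun i j => P0 (e i) j)).transpose⁻¹) hform
        simp only [zero_mul] at this
        rwa [Matrix.mul_nonsing_inv_cancel_right _ _ hu'] at this
      have h2 := congrArg (fun Z => (Matrix.of (fun i j => P0 (e i) j))⁻¹ * Z) h1
      simp only [mul_zero] at h2
      rwa [Matrix.nonsing_inv_mul_cancel_left _ _ hu] at h2
    funext w
    obtain ⟨v, k⟩ := w
    by_cases hv : ({v} : Finset V) ∈ S
    · have := congrFun (hX2 v hv) k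
      rw [hX0, Matrix.zero_mulVec] at this
      exact this
    · have := congrFun hx (Sum.inr (Sum.inr (v, k)))
      rw [sys_inrr, if_neg hv] at this
      exact this
  obtain ⟨f, hf, hf2⟩ := gen_injective (sys (K := K) S e) (fun p : Fin m × V => P0 p.2 p.1) inj0
  have hg : ∀ c : Fin m × V → K, MvPolynomial.eval c
      (Matrix.of fun i j => (MvPolynomial.X (j, e i) : MvPolynomial (Fin m × V) K)).det
        = (Matrix.of fun i j => c (j, e i)).det := by
    intro c
    rw [RingHom.map_det]
    have : (MvPolynomial.eval c).mapMatrix (Matrix.of fun i j => (MvPolynomial.X (j, e i) : MvPolynomial (Fin m × V) K))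
        = Matrix.of fun i j => c (j, e i) := by
      ext i j
      simp
    rw [this]
  refine ⟨f * (Matrix.of fun i j => (MvPolynomial.X (j, e i) : MvPolynomial (Fin m × V) K)).det, ?_, ?_⟩
  · refine mul_ne_zero hf ?_
    intro h0
    have := hg fun p : Fin m × V => P0 p.2 p.1
    rw [h0, map_zero] at this
    exact hdet this.symm
  · intro c hc
    rw [map_mul] at hc
    have hc1 := left_ne_zero_of_mul hc
    have hc2 := right_ne_zero_of_mul hc
    rw [hg] at hc2
    intro z hz
    have hinj := hf2 c hc1
    -- the gauge
    set Q : Matrix (Fin m) (Fin m) K := Matrix.of fun i j => c (j, e i) with hQ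
    let Y : Matrix (Fin m) (Fin m) K := fun i j => if i < j then ∑ k, z (e j) k * c (k, e i)
      else if j < i then - ∑ k, z (e i) k * c (k, e j) else 0
    have hY : Y.transpose = -Y := by
      ext i j
      rw [Matrix.transpose_apply, Matrix.neg_apply]
      simp only [Y]
      rcases lt_trichotomy i j with hij | hij | hij
      · simp [hij, not_lt.mpr hij.le]
      · subst hij; simp
      · simp [hij, not_lt.mpr hij.le]
    have hu : IsUnit Q.det := isUnit_iff_ne_zero.mpr hc2
    let X : Matrix (Fin m) (Fin m) K := Q⁻¹ * Y * (Q⁻¹).transpose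
    have hX : X.transpose = -X := by
      simp only [X, Matrix.transpose_mul, Matrix.transpose_transpose, hY]
      simp [Matrix.mul_assoc]
    have hQX : Q * X * Q.transpose = Y := by
      have h1 : Q * Q⁻¹ = 1 := Matrix.mul_nonsing_inv _ hu
      have h2 : (Q⁻¹).transpose * Q.transpose = 1 := by
        rw [← Matrix.transpose_mul, h1, Matrix.transpose_one]
      calc Q * X * Q.transpose = (Q * Q⁻¹) * Y * ((Q⁻¹).transpose * Q.transpose) := by
            simp only [X, Matrix.mul_assoc]
        _ = Y := by rw [h1, h2, Matrix.one_mul, Matrix.mul_one]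
    have hP : ∀ i j, ∑ k, X.mulVec (fun l => c (l, e j)) k * c (k, e i) = Y i j := by
      intro i j
      have := form_eq X (fun v l => c (l, v)) e i j
      rw [← this]
      exact congrFun (congrFun hQX i) j
    refine ⟨X, hX, ?_⟩
    have hx0 := hinj (fun w => if ({w.1} : Finset V) ∈ S then z w.1 w.2 - X.mulVec (fun l => c (l, w.1)) w.2 else 0) (by
      funext r
      rw [Pi.zero_apply]
      rcases r with ⟨u, v⟩ | ⟨i, j⟩ | ⟨v, k⟩
      · rw [sys_inl]
        split_ifs with huv
        · have hu1 := hd u v huv
          have hv1 := hd' u v huv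
          simp only [hu1, hv1, if_true]
          have h1 := hz u v huv
          have h2 := skew_form X hX (fun l => c (l, u)) (fun l => c (l, v))
          have h3 : ∑ k, ((z u k - X.mulVec (fun l => c (l, u)) k) * c (k, v)
              + (z v k - X.mulVec (fun l => c (l, v)) k) * c (k, u))
              = ∑ i, (z u i * c (i, v) + z v i * c (i, u))
                - ∑ k, (X.mulVec (fun l => c (l, u)) k * c (k, v) + X.mulVec (fun l => c (l, v)) k * c (k, u)) := by
            rw [← Finset.sum_sub_distrib]
            refine Finset.sum_congr rfl fun k _ => ?_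
            ring
          rw [h3, h2, sub_zero]
          exact h1
        · rfl
      · rw [sys_inrl]
        split_ifs with hij
        · simp only [he j, if_true]
          have h1 := hP i j
          have h2 : Y i j = ∑ k, z (e j) k * c (k, e i) := by
            simp only [Y, hij, if_true]
          simp only [sub_mul]
          rw [Finset.sum_sub_distrib, h1, h2, sub_self]
        · rfl
      · rw [sys_inrr]
        split_ifs with hv
        · rfl
        · rfl)
    intro v hv
    funext k
    have := congrFun hx0 (v, k)
    simp only [hv, if_true, Pi.zero_apply] at this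
    exact sub_eq_zero.mp this

end Pool.Agent.H404.Rg.W2
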