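import Pool.Agent.H128.Rg.Defs

set_option autoImplicit false
set_option linter.unusedSectionVars false

/-! W4 and W6 of the project Rg of helper128 (helper974). -/

namespace Pool.Agent.H974.Rg

open Pool.Agent.H128.Rg

variable {V : Type} [Fintype V] [DecidableEq V] {K : Type} [Field K] [CharZero K] {m n d : ℕ}

/-- W4. -/
theorem skew_unique (Y : Matrix (Fin (m + 1)) (Fin (m + 1)) K) (hY : Y.transpose = -Y)
    (Q : Fin (m + 1) → Fin (m + 1) → K) (hQ : (Matrix.of Q).det ≠ 0)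
    (h : ∀ i : Fin m, Y.mulVec (Q i.castSucc) = 0) : Y = 0 := by
  have hsk : ∀ a b : Fin (m + 1) → K, a ⬝ᵥ (Y.mulVec b) = -((Y.mulVec a) ⬝ᵥ b) := by
    intro a b
    rw [Matrix.dotProduct_mulVec, ← Matrix.mulVec_transpose, hY, Matrix.neg_mulVec,
      neg_dotProduct]
  have h1 : Y.mulVec (Q (Fin.last m)) = 0 := by
    refine Matrix.eq_zero_of_mulVec_eq_zero hQ ?_
    funext j
    change Q j ⬝ᵥ (Y.mulVec (Q (Fin.last m))) = 0
    refine Fin.lastCases ?_ (fun i => ?_) j
    · have h2 := hsk (Q (Fin.last m)) (Q (Fin.last m))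
      rw [dotProduct_comm (Y.mulVec (Q (Fin.last m)))] at h2
      have h3 : (2 : K) * (Q (Fin.last m) ⬝ᵥ (Y.mulVec (Q (Fin.last m)))) = 0 := by
        linear_combination h2
      exact (mul_eq_zero.1 h3).resolve_left two_ne_zero
    · rw [hsk, h i, zero_dotProduct, neg_zero]
  have h2 : ∀ j, Y.mulVec (Q j) = 0 := fun j => Fin.lastCases h1 (fun i => h i) j
  have h3 : ∀ i, Y i = 0 := by
    intro i
    refine Matrix.eq_zero_of_mulVec_eq_zero hQ ?_
    funext j
    change Q j ⬝ᵥ Y i = 0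
    rw [dotProduct_comm]
    exact congrFun (h2 j) i
  exact funext h3

/-- W6. A polynomial family of linear systems (`σ` parameters) which is injective at one point is injective outside a
hypersurface. -/
theorem gen_injective {σ ι κ : Type} [Fintype ι] [DecidableEq ι] [Fintype κ] [DecidableEq κ]
    (N : Matrix ι κ (MvPolynomial σ K)) (c0 : σ → K)
    (h0 : ∀ x : κ → K, (N.map (MvPolynomial.eval c0)).mulVec x = 0 → x = 0) :
    Gen (K := K) fun c : σ → K => ∀ x : κ → K, (N.map (MvPolynomial.eval c)).mulVec x = 0 → x = 0 := by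
  obtain ⟨N0, hN0⟩ : ∃ N0 : Matrix ι κ K, N0 = N.map (MvPolynomial.eval c0) := ⟨_, rfl⟩
  rw [← hN0] at h0
  obtain ⟨g, hg⟩ := LinearMap.exists_leftInverse_of_injective (Matrix.toLin' N0) (by
    rw [LinearMap.ker_eq_bot']
    intro x hx
    exact h0 x hx)
  obtain ⟨L0, hL0⟩ : ∃ L0 : Matrix κ ι K, L0 = LinearMap.toMatrix' g := ⟨_, rfl⟩
  have hLN : L0 * N0 = 1 := by
    have h1 := LinearMap.toMatrix'_comp g (Matrix.toLin' N0)
    rw [hg, LinearMap.toMatrix'_id, LinearMap.toMatrix'_toLin', ← hL0] at h1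
    exact h1.symm
  obtain ⟨L1, hL1⟩ : ∃ L1 : Matrix κ ι (MvPolynomial σ K),
    L1 = L0.map (fun a => MvPolynomial.C a) := ⟨_, rfl⟩
  obtain ⟨M, hM⟩ : ∃ M : Matrix κ κ (MvPolynomial σ K), M = L1 * N := ⟨_, rfl⟩
  have hev : ∀ c : σ → K, MvPolynomial.eval c (Matrix.det M) =
      (L0 * N.map (MvPolynomial.eval c)).det := by
    intro c
    rw [RingHom.map_det]
    congr 1
    ext i j
    rw [hM, hL1]
    simp [Matrix.mul_apply]
  refine ⟨Matrix.det M, ?_, ?_⟩
  · intro hf
    have h1 := hev c0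
    rw [hf, map_zero, ← hN0, hLN, Matrix.det_one] at h1
    exact zero_ne_one h1
  · intro c hc x hx
    rw [hev] at hc
    refine Matrix.eq_zero_of_mulVec_eq_zero hc ?_
    rw [← Matrix.mulVec_mulVec, hx, Matrix.mulVec_zero]

end Pool.Agent.H974.Rg
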