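import Pool.Agent.H128.Rg.Defs

/-!
# W5: vertex splitting, special position
-/

set_option autoImplicit false
set_option linter.unusedSectionVars false

namespace Pool.Agent.H650.Rg

open Pool.Agent.H128.Rg

variable {V : Type} [Fintype V] [DecidableEq V] {K : Type} [Field K] [CharZero K] {m n d : ℕ}

/-- W5. At `P c = P a`, with the edge `{a, c}` replaced by the equation `⟪z c - z a, q⟫ = 0`. -/
theorem split_special (S : Finset (Finset V)) (hS : Down S) (a c : V) (hac : a ≠ c)
    (h : ({a, c} : Finset V) ∈ S) (P : V → Fin m → K) (hP : P c = P a) (q : Fin m → K)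
    (hR : Rigid (contract S a c) P)
    (hsp : ∀ y : Fin m → K, ∑ i, y i * q i = 0 → ∑ i, y i * P a i = 0 →
      (∀ u, u ≠ a → u ≠ c → ({u, a} : Finset V) ∈ S → ({u, c} : Finset V) ∈ S → ∑ i, y i * P u i = 0) → y = 0)
    (z : V → Fin m → K)
    (hz : ∀ u v, ¬ (u = a ∧ v = c) → ¬ (u = c ∧ v = a) → ({u, v} : Finset V) ∈ S →
      ∑ i, (z u i * P v i + z v i * P u i) = 0)
    (hzq : ∑ i, (z c i - z a i) * q i = 0) :
    ∃ X : Matrix (Fin m) (Fin m) K, X.transpose = -X ∧ ∀ v, ({v} : Finset V) ∈ S → z v = X.mulVec (P v) := by
  have haS : ({a} : Finset V) ∈ S := hS _ h _ (by simp)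
  have hcS : ({c} : Finset V) ∈ S := hS _ h _ (by simp)
  have hdiag : ∀ w : V, ({w} : Finset V) ∈ S → ∑ i, z w i * P w i = 0 := by
    intro w hw
    have h1 := hz w w (fun h => hac (h.1.symm.trans h.2)) (fun h => hac (h.2.symm.trans h.1))
      (by rw [Finset.pair_eq_singleton]; exact hw)
    have h2 : ∑ i, (z w i * P w i + z w i * P w i) = 2 * ∑ i, z w i * P w i := by
      rw [Finset.mul_sum]
      exact Finset.sum_congr rfl fun i _ => by ring
    rw [h2] at h1
    rcases mul_eq_zero.1 h1 with h3 | h3
    · exact absurd h3 two_ne_zero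
    · exact h3
  have hy : (fun i => z c i - z a i) = 0 := by
    apply hsp _ hzq
    · have h1 := hdiag a haS
      have h2 := hdiag c hcS
      rw [hP] at h2
      have h3 : ∑ i, (z c i - z a i) * P a i = ∑ i, z c i * P a i - ∑ i, z a i * P a i := by
        rw [← Finset.sum_sub_distrib]
        exact Finset.sum_congr rfl fun i _ => by ring
      rw [h3, h1, h2, sub_zero]
    · intro u hua huc h1 h2
      have e1 := hz u a (fun h => hua h.1) (fun h => huc h.1) h1
      have e2 := hz u c (fun h => hua h.1) (fun h => huc h.1) h2
      rw [hP] at e2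
      have h3 : ∑ i, (z c i - z a i) * P u i = ∑ i, (z u i * P a i + z c i * P u i) -
          ∑ i, (z u i * P a i + z a i * P u i) := by
        rw [← Finset.sum_sub_distrib]
        exact Finset.sum_congr rfl fun i _ => by ring
      rw [h3, e1, e2, sub_zero]
  have hzc : z c = z a := by
    funext i
    have := congrFun hy i
    exact sub_eq_zero.1 this
  have hmot : Motion (contract S a c) P z := by
    intro u v huv
    unfold contract at huv
    obtain ⟨σ, hσ, hσe⟩ := Finset.mem_image.1 huv
    by_cases hc : c ∈ σ
    · rw [if_pos hc] at hσe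
      have hu : u ∈ insert a (σ.erase c) := by rw [hσe]; simp
      have hv : v ∈ insert a (σ.erase c) := by rw [hσe]; simp
      have key : ∀ w ∈ insert a (σ.erase c), w ≠ a →
          ∑ i, (z a i * P w i + z w i * P a i) = 0 := by
        intro w hw hwa
        rcases Finset.mem_insert.1 hw with h1 | h1
        · exact absurd h1 hwa
        · have hwc := Finset.ne_of_mem_erase h1
          have hwσ := Finset.mem_of_mem_erase h1
          have h2 : ({c, w} : Finset V) ∈ S := by
            apply hS σ hσ
            intro t ht
            rcases Finset.mem_insert.1 ht with h3 | h3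
            · rw [h3]; exact hc
            · rw [Finset.mem_singleton.1 h3]; exact hwσ
          have h3 := hz c w (fun h => hac h.1.symm) (fun h => hwa h.2) h2
          rw [hzc, hP] at h3
          exact h3
      by_cases hua : u = a
      · by_cases hva : v = a
        · rw [hua, hva]
          have h1 := hdiag a haS
          rw [Finset.sum_add_distrib, h1, add_zero]
        · rw [hua]
          exact key v hv hva
      · by_cases hva : v = a
        · rw [hva]
          have h1 := key u hu hua
          rw [← h1]
          exact Finset.sum_congr rfl fun i _ => by ring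
        · have hu' := Finset.mem_of_mem_insert_of_ne hu hua
          have hv' := Finset.mem_of_mem_insert_of_ne hv hva
          apply hz u v (fun h => hua h.1) (fun h => hva h.2)
          apply hS σ hσ
          intro t ht
          rcases Finset.mem_insert.1 ht with h3 | h3
          · rw [h3]; exact Finset.mem_of_mem_erase hu'
          · rw [Finset.mem_singleton.1 h3]; exact Finset.mem_of_mem_erase hv'
    · rw [if_neg hc] at hσe
      apply hz u v
      · rintro ⟨-, h2⟩
        apply hc
        rw [hσe, h2]
        simp
      · rintro ⟨h1, -⟩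
        apply hc
        rw [hσe, h1]
        simp
      · rw [← hσe]
        exact hσ
  obtain ⟨X, hX, hXv⟩ := hR z hmot
  have hmem : ∀ v : V, v ≠ c → ({v} : Finset V) ∈ S → ({v} : Finset V) ∈ contract S a c := by
    intro v hvc hv
    unfold contract
    refine Finset.mem_image.2 ⟨{v}, hv, ?_⟩
    rw [if_neg]
    intro h1
    exact hvc (Finset.mem_singleton.1 h1).symm
  refine ⟨X, hX, fun v hv => ?_⟩
  by_cases hvc : v = c
  · rw [hvc, hzc, hP]
    exact hXv a (hmem a hac haS)
  · exact hXv v (hmem v hvc hv)

end Pool.Agent.H650.Rg
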