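import Pool.Agent.H128.Rg.Basic
import Pool.Agent.H128.Rg.W4W6
import Pool.Agent.H128.Rg.W5
import Pool.Agent.H128.Rg.W2

set_option autoImplicit false
set_option linter.unusedSectionVars false

/-! Rigidity of vector configurations: vertex splitting. -/

namespace Pool.Agent.H128.Rg



variable {V : Type} [Fintype V] [DecidableEq V] {K : Type} [Field K] [CharZero K] {m n : ℕ}

lemma row_one (u : V) (A : Fin m → K) (x : V × Fin m → K) :
    ∑ q : V × Fin m, (if q.1 = u then A q.2 else 0) * x q = ∑ k, x (u, k) * A k := by
  rw [Fintype.sum_prod_type_right]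
  refine Finset.sum_congr rfl fun k _ => ?_
  simp only [ite_mul, zero_mul, Finset.sum_ite_eq', Finset.sum_ite_eq, Finset.mem_univ, if_true]
  ring

lemma row_two (u v : V) (A B : Fin m → K) (x : V × Fin m → K) :
    ∑ q : V × Fin m, ((if q.1 = u then A q.2 else 0) + (if q.1 = v then B q.2 else 0)) * x q =
      ∑ k, (x (u, k) * A k + x (v, k) * B k) := by
  simp only [add_mul, Finset.sum_add_distrib]
  rw [row_one, row_one]

/-- the linear system -/
lemma gen_split_system (S : Finset (Finset V)) (a c : V) (P : V → Fin m → K) (q0 : Fin m → K)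
    (g : Fin m → V)
    (h0 : ∀ z : V → Fin m → K, (∀ u v, ¬ (u = a ∧ v = c) → ¬ (u = c ∧ v = a) → ({u, v} : Finset V) ∈ S →
        ∑ k, (z u k * (Function.update P c (P a)) v k + z v k * (Function.update P c (P a)) u k) = 0) →
      (∑ k, (z c k * q0 k + z a k * (- q0 k)) = 0) →
      (∀ i j, i < j → ∑ k, z (g j) k * (Function.update P c (P a)) (g i) k = 0) →
      (∀ w k, ({w} : Finset V) ∉ S → z w k = 0) → z = 0) :
    ∃ t : K, t ≠ 0 ∧ (∀ z : V → Fin m → K,
      (∀ u v, ¬ (u = a ∧ v = c) → ¬ (u = c ∧ v = a) → ({u, v} : Finset V) ∈ S →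
        ∑ k, (z u k * (Function.update P c (P a + t • q0)) v k +
          z v k * (Function.update P c (P a + t • q0)) u k) = 0) →
      (∑ k, (z c k * q0 k + z a k * (- q0 k)) = 0) →
      (∀ i j, i < j → ∑ k, z (g j) k * (Function.update P c (P a + t • q0)) (g i) k = 0) →
      (∀ w k, ({w} : Finset V) ∉ S → z w k = 0) → z = 0) := by
  classical
  obtain ⟨Pe, hPe⟩ : ∃ Pe : V → Fin m → MvPolynomial Unit K, ∀ u k, Pe u k =
    if u = c then MvPolynomial.C (P a k) + MvPolynomial.X () * MvPolynomial.C (q0 k) else
      MvPolynomial.C (P u k) := ⟨_, fun _ _ => rfl⟩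
  have hev : ∀ (t : Unit → K) u k, MvPolynomial.eval t (Pe u k) =
      (Function.update P c (P a + t () • q0)) u k := by
    intro t u k
    rw [hPe]
    by_cases hu : u = c
    · rw [if_pos hu, hu, Function.update_self]
      simp
    · rw [if_neg hu, Function.update_of_ne hu]
      simp
  let N : Matrix ((V × V) ⊕ (Unit ⊕ ((Fin m × Fin m) ⊕ (V × Fin m)))) (V × Fin m) (MvPolynomial Unit K) :=
    fun r q => match r with
      | .inl (u, v) => if ¬ (u = a ∧ v = c) ∧ ¬ (u = c ∧ v = a) ∧ ({u, v} : Finset V) ∈ S then
          (if q.1 = u then Pe v q.2 else 0) + (if q.1 = v then Pe u q.2 else 0) else 0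
      | .inr (.inl ()) => (if q.1 = c then MvPolynomial.C (q0 q.2) else 0) +
          (if q.1 = a then MvPolynomial.C (- q0 q.2) else 0)
      | .inr (.inr (.inl (i, j))) => if i < j then (if q.1 = g j then Pe (g i) q.2 else 0) else 0
      | .inr (.inr (.inr (w, k))) => if ({w} : Finset V) ∉ S then
          (if q.1 = w then (if q.2 = k then 1 else 0) else 0) else 0
  have key : ∀ (t : Unit → K) (x : V × Fin m → K), (N.map (MvPolynomial.eval t)).mulVec x = 0 ↔
      (∀ u v, ¬ (u = a ∧ v = c) → ¬ (u = c ∧ v = a) → ({u, v} : Finset V) ∈ S →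
        ∑ k, (x (u, k) * (Function.update P c (P a + t () • q0)) v k +
          x (v, k) * (Function.update P c (P a + t () • q0)) u k) = 0) ∧
      (∑ k, (x (c, k) * q0 k + x (a, k) * (- q0 k)) = 0) ∧
      (∀ i j, i < j → ∑ k, x (g j, k) * (Function.update P c (P a + t () • q0)) (g i) k = 0) ∧
      (∀ w k, ({w} : Finset V) ∉ S → x (w, k) = 0) := by
    intro t x
    have e1 : ∀ u v, (N.map (MvPolynomial.eval t)).mulVec x (.inl (u, v)) =
        if ¬ (u = a ∧ v = c) ∧ ¬ (u = c ∧ v = a) ∧ ({u, v} : Finset V) ∈ S then
        ∑ k, (x (u, k) * (Function.update P c (P a + t () • q0)) v k +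
          x (v, k) * (Function.update P c (P a + t () • q0)) u k) else 0 := by
      intro u v
      rw [Matrix.mulVec, dotProduct]
      split_ifs with h
      · rw [← row_two]
        refine Finset.sum_congr rfl fun q _ => ?_
        rw [Matrix.map_apply]
        show MvPolynomial.eval t (if _ then _ else _) * _ = _
        rw [if_pos h, map_add, apply_ite (MvPolynomial.eval t), apply_ite (MvPolynomial.eval t), hev, hev,
          map_zero]
      · refine Finset.sum_eq_zero fun q _ => ?_
        rw [Matrix.map_apply]
        show MvPolynomial.eval t (if _ then _ else _) * _ = _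
        rw [if_neg h, map_zero, zero_mul]
    have e2 : (N.map (MvPolynomial.eval t)).mulVec x (.inr (.inl ())) =
        ∑ k, (x (c, k) * q0 k + x (a, k) * (- q0 k)) := by
      rw [Matrix.mulVec, dotProduct, ← row_two]
      refine Finset.sum_congr rfl fun q _ => ?_
      rw [Matrix.map_apply]
      show MvPolynomial.eval t (_ + _) * _ = _
      rw [map_add, apply_ite (MvPolynomial.eval t), apply_ite (MvPolynomial.eval t), MvPolynomial.eval_C,
        MvPolynomial.eval_C, map_zero]
    have e3 : ∀ i j, (N.map (MvPolynomial.eval t)).mulVec x (.inr (.inr (.inl (i, j)))) =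
        if i < j then ∑ k, x (g j, k) * (Function.update P c (P a + t () • q0)) (g i) k else 0 := by
      intro i j
      rw [Matrix.mulVec, dotProduct]
      split_ifs with h
      · rw [← row_one]
        refine Finset.sum_congr rfl fun q _ => ?_
        rw [Matrix.map_apply]
        show MvPolynomial.eval t (if _ then _ else _) * _ = _
        rw [if_pos h, apply_ite (MvPolynomial.eval t), hev, map_zero]
      · refine Finset.sum_eq_zero fun q _ => ?_
        rw [Matrix.map_apply]
        show MvPolynomial.eval t (if _ then _ else _) * _ = _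
        rw [if_neg h, map_zero, zero_mul]
    have e4 : ∀ w k, (N.map (MvPolynomial.eval t)).mulVec x (.inr (.inr (.inr (w, k)))) =
        if ({w} : Finset V) ∉ S then x (w, k) else 0 := by
      intro w k
      rw [Matrix.mulVec, dotProduct]
      by_cases h : ({w} : Finset V) ∈ S
      · rw [if_neg (not_not.2 h)]
        refine Finset.sum_eq_zero fun q _ => ?_
        rw [Matrix.map_apply]
        show MvPolynomial.eval t (if _ then _ else _) * _ = _
        rw [if_neg (not_not.2 h), map_zero, zero_mul]
      · rw [if_pos h]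
        have : x (w, k) = ∑ k', x (w, k') * (if k' = k then 1 else 0) := by
          simp
        rw [this, ← row_one]
        refine Finset.sum_congr rfl fun q _ => ?_
        rw [Matrix.map_apply]
        show MvPolynomial.eval t (if _ then _ else _) * _ = _
        rw [if_pos h, apply_ite (MvPolynomial.eval t), apply_ite (MvPolynomial.eval t), map_one, map_zero]
    constructor
    · intro hx
      refine ⟨fun u v h1 h2 h3 => ?_, ?_, fun i j hij => ?_, fun w k hw => ?_⟩
      · have := e1 u v
        rw [hx, if_pos ⟨h1, h2, h3⟩] at this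
        exact this.symm
      · rw [← e2, hx]; rfl
      · have := e3 i j
        rw [hx, if_pos hij] at this
        exact this.symm
      · have := e4 w k
        rw [hx, if_pos hw] at this
        exact this.symm
    · rintro ⟨h1, h2, h3, h4⟩
      funext r
      rcases r with ⟨u, v⟩ | ⟨⟨⟩⟩ | ⟨i, j⟩ | ⟨w, k⟩
      · rw [e1]
        split_ifs with h
        · exact h1 u v h.1 h.2.1 h.2.2
        · rfl
      · rw [e2]; exact h2
      · rw [e3]
        split_ifs with h
        · exact h3 i j h
        · rfl
      · rw [e4]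
        by_cases h : ({w} : Finset V) ∈ S
        · rw [if_neg (not_not.2 h)]
          rfl
        · rw [if_pos h]
          exact h4 w k h
  have hgen := Pool.Agent.H974.Rg.gen_injective N (fun _ => (0 : K)) (by
    intro x hx
    obtain ⟨h1, h2, h3, h4⟩ := (key _ x).1 hx
    rw [zero_smul, add_zero] at h1 h3
    have := h0 (fun u k => x (u, k)) h1 h2 h3 h4
    funext q
    exact congrFun (congrFun this q.1) q.2)
  have hX : Gen (K := K) fun t : Unit → K => t () ≠ 0 :=
    ⟨MvPolynomial.X (), MvPolynomial.X_ne_zero _, fun t ht => by rwa [MvPolynomial.eval_X] at ht⟩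
  obtain ⟨t, ht1, ht2⟩ := (hgen.and hX).exists
  refine ⟨t (), ht2, fun z h1 h2 h3 h4 => ?_⟩
  have := ht1 (fun q => z q.1 q.2) ((key t _).2 ⟨h1, h2, h3, h4⟩)
  funext u k
  exact congrFun this (u, k)

end Pool.Agent.H128.Rg
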