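import Pool.Agent.H128.Rg.Defs3
import Pool.Agent.H128.Rg.Split

set_option autoImplicit false
set_option linter.unusedSectionVars false

/-! Rigidity of vector configurations: vertex splitting, generic version. -/

namespace Pool.Agent.H128.Rg

variable {V : Type} [Fintype V] [DecidableEq V] {K : Type} [Field K] [CharZero K] {m n : ℕ}

lemma skew_zero {X : Matrix (Fin m) (Fin m) K} (hX : X.transpose = -X) (Q : Fin m → Fin m → K)
    (hQ : (Matrix.of Q).det ≠ 0) (h : ∀ i j, i < j → ∑ k, X.mulVec (Q j) k * Q i k = 0) : X = 0 := by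
  have hu : IsUnit (Matrix.of Q).det := isUnit_iff_ne_zero.2 hQ
  have h2 : ∀ i j, (Matrix.of Q * X * (Matrix.of Q).transpose) i j = ∑ k, X.mulVec (Q j) k * Q i k := by
    intro i j
    rw [Matrix.mul_assoc, Matrix.mul_apply]
    refine Finset.sum_congr rfl fun k _ => ?_
    rw [Matrix.mul_apply, Matrix.mulVec, dotProduct, mul_comm]
    rfl
  have h3 : ∀ i j, ∑ k, X.mulVec (Q j) k * Q i k = - ∑ k, X.mulVec (Q i) k * Q j k := by
    intro i j
    have := skew_motion hX (Q j) (Q i)
    rw [Finset.sum_add_distrib] at this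
    exact eq_neg_of_add_eq_zero_left this
  have h4 : Matrix.of Q * X * (Matrix.of Q).transpose = 0 := by
    ext i j
    rw [h2, Matrix.zero_apply]
    rcases lt_trichotomy i j with hij | hij | hij
    · exact h i j hij
    · rw [hij]
      have := h3 j j
      exact self_eq_neg.1 this
    · rw [h3, h j i hij, neg_zero]
  have h5 : (Matrix.of Q)⁻¹ * (Matrix.of Q * X * (Matrix.of Q).transpose) * ((Matrix.of Q).transpose)⁻¹ = 0 := by
    rw [h4, Matrix.mul_zero, Matrix.zero_mul]
  have hu' : IsUnit ((Matrix.of Q).transpose).det := by rw [Matrix.det_transpose]; exact hu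
  rwa [Matrix.mul_assoc, Matrix.mul_assoc, Matrix.mul_assoc, Matrix.mul_nonsing_inv _ hu', Matrix.mul_one,
    ← Matrix.mul_assoc, Matrix.nonsing_inv_mul _ hu, Matrix.one_mul] at h5

/-- Vertex splitting. -/
theorem GR_split (R R' : V → V → Prop) (hs : ∀ u v, R u v → R v u) (hr : ∀ u v, R u v → R u u)
    (a c : V) (hac : a ≠ c) (h : R a c) (L : Finset V) (hL : ∀ u ∈ L, R a u ∧ R c u) (hLm : m ≤ L.card)
    (M : Finset V) (hM : ∀ u ∈ M, R u u ∧ u ≠ c) (hMm : m ≤ M.card)
    (hR1 : ∀ u v, R' u v → R' u u ∧ R' v v)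
    (hR2 : ∀ u v, R' u v → u ≠ c ∧ v ≠ c ∧ (R u v ∨ (u = a ∧ R c v) ∨ (v = a ∧ R u c)))
    (hR3 : ∀ v, R v v → v ≠ c → R' v v) (hg : GR K R' m) : GR K R m := by
  classical
  -- the clique complex
  obtain ⟨S, hSdef⟩ : ∃ S : Finset (Finset V), ∀ σ, σ ∈ S ↔ ∀ u ∈ σ, ∀ v ∈ σ, R u v :=
    ⟨Finset.univ.filter fun σ => ∀ u ∈ σ, ∀ v ∈ σ, R u v, fun σ => by simp⟩
  have hS : Down S := fun F hF G hG => (hSdef G).2 fun u hu v hv => (hSdef F).1 hF u (hG hu) v (hG hv)
  have hpair : ∀ u v, ({u, v} : Finset V) ∈ S ↔ R u v := by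
    intro u v
    rw [hSdef]
    constructor
    · intro h
      exact h u (by simp) v (by simp)
    · intro h x hx y hy
      rw [Finset.mem_insert, Finset.mem_singleton] at hx hy
      rcases hx with rfl | rfl <;> rcases hy with rfl | rfl
      · exact hr _ _ h
      · exact h
      · exact hs _ _ h
      · exact hr _ _ (hs _ _ h)
  have hsing : ∀ u, ({u} : Finset V) ∈ S ↔ R u u := fun u => by
    rw [← hpair, Finset.pair_eq_singleton]
  have hcon : ∀ σ, σ ∈ contract S a c ↔ ∃ τ ∈ S, (if c ∈ τ then insert a (τ.erase c) else τ) = σ := by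
    intro σ
    rw [contract, Finset.mem_image]
  have hcon2 : ∀ u v, R' u v → ({u, v} : Finset V) ∈ contract S a c := by
    intro u v huv
    obtain ⟨hu, hv, h1 | ⟨rfl, h1⟩ | ⟨rfl, h1⟩⟩ := hR2 u v huv
    · refine (hcon _).2 ⟨{u, v}, (hpair u v).2 h1, ?_⟩
      rw [if_neg]
      rw [Finset.mem_insert, Finset.mem_singleton]
      rintro (h | h)
      · exact hu h.symm
      · exact hv h.symm
    · refine (hcon _).2 ⟨{c, v}, (hpair c v).2 h1, ?_⟩
      rw [if_pos (by simp)]
      ext x
      simp only [Finset.mem_insert, Finset.mem_erase, Finset.mem_singleton]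
      constructor
      · rintro (h | ⟨h2, h3 | h3⟩)
        · exact Or.inl h
        · exact absurd h3 h2
        · exact Or.inr h3
      · rintro (h | h)
        · exact Or.inl h
        · exact Or.inr ⟨by rw [h]; exact hv, Or.inr h⟩
    · refine (hcon _).2 ⟨{u, c}, (hpair u c).2 h1, ?_⟩
      rw [if_pos (by simp)]
      ext x
      simp only [Finset.mem_insert, Finset.mem_erase, Finset.mem_singleton]
      constructor
      · rintro (h | ⟨h2, h3 | h3⟩)
        · exact Or.inr h
        · exact Or.inl h3
        · exact absurd h3 h2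
      · rintro (h | h)
        · exact Or.inr ⟨by rw [h]; exact hu, Or.inl h⟩
        · exact Or.inl h
  have hcon3 : ∀ v, ({v} : Finset V) ∈ contract S a c → R' v v ∧ v ≠ c := by
    intro v hv
    obtain ⟨τ, hτ, hτ'⟩ := (hcon _).1 hv
    by_cases hc : c ∈ τ
    · rw [if_pos hc] at hτ'
      have h1 : a ∈ ({v} : Finset V) := by rw [← hτ']; exact Finset.mem_insert_self _ _
      rw [Finset.mem_singleton] at h1
      subst h1
      exact ⟨hR3 a (hr a c h) hac, hac⟩
    · rw [if_neg hc] at hτ'
      subst hτ'
      have hvc : v ≠ c := fun h => hc (by rw [h]; exact Finset.mem_singleton_self c)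
      exact ⟨hR3 v ((hsing v).1 hτ) hvc, hvc⟩
  -- generic vectors
  obtain ⟨eL⟩ := Function.Embedding.nonempty_of_card_le (α := Fin m) (β := L) (by
    rw [Fintype.card_fin, Fintype.card_coe]
    exact hLm)
  obtain ⟨eM⟩ := Function.Embedding.nonempty_of_card_le (α := Fin m) (β := M) (by
    rw [Fintype.card_fin, Fintype.card_coe]
    exact hMm)
  obtain ⟨c0, hc1, hc2, hc3⟩ := (hg.and ((gen_det (K := K) (fun i => (eL i).1)
    (fun i j h => eL.injective (Subtype.ext h))).and (gen_det (K := K) (fun i => (eM i).1)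
    (fun i j h => eM.injective (Subtype.ext h))))).exists
  set g : Fin m → V := fun i => (eM i).1 with hgdef
  have hgM : ∀ i, R (g i) (g i) ∧ g i ≠ c := fun i => hM _ (eM i).2
  set P0 : V → Fin m → K := fun v i => c0 (i, v) with hP0
  set q0 : Fin m → K := P0 c with hq0
  have hdetM : (Matrix.of fun i j => P0 (g i) j).det ≠ 0 := hc3
  have hspan : ∀ y : Fin m → K, (∀ u ∈ L, ∑ i, y i * P0 u i = 0) → y = 0 := by
    intro y hy
    refine Matrix.eq_zero_of_mulVec_eq_zero hc2 ?_
    funext i
    have := hy _ (eL i).2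
    rw [Pi.zero_apply, ← this, Matrix.mulVec, dotProduct]
    exact Finset.sum_congr rfl fun k _ => by rw [mul_comm]; rfl
  -- rigidity of the contraction at `P'`
  set P' := Function.update P0 c (P0 a) with hP'
  have hrig : Rigid (contract S a c) P' := by
    intro z hz
    obtain ⟨X, hX, hX'⟩ := hc1 z fun u v huv => by
      have h1 := hz u v (hcon2 u v huv)
      obtain ⟨hu, hv, -⟩ := hR2 u v huv
      rw [hP', Function.update_of_ne hv, Function.update_of_ne hu] at h1
      exact h1
    refine ⟨X, hX, fun v hv => ?_⟩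
    obtain ⟨h1, h2⟩ := hcon3 v hv
    rw [hX' v h1, hP', Function.update_of_ne h2]
  obtain ⟨t, ht, hsys⟩ := gen_split_system (K := K) S a c P0 q0 g (by
    intro z h1 h2 h3 h4
    obtain ⟨X, hX, hX'⟩ := Pool.Agent.H650.Rg.split_special S hS a c hac ((hpair a c).2 h) P'
      (by rw [hP', Function.update_self, Function.update_of_ne hac]) q0 hrig (by
        intro y hy1 hy2 hy3
        refine hspan y fun u hu => ?_
        by_cases huc : u = c
        · rw [huc]
          exact hy1
        by_cases hua : u = a
        · rw [hua]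
          rw [hP', Function.update_of_ne hac] at hy2
          exact hy2
        · have h5 := hy3 u hua huc (by rw [hpair]; exact hs _ _ (hL u hu).1)
            (by rw [hpair]; exact hs _ _ (hL u hu).2)
          rw [hP', Function.update_of_ne huc] at h5
          exact h5) z h1 (by
        rw [← h2]
        exact Finset.sum_congr rfl fun k _ => by ring)
    have hX0 : X = 0 := by
      refine skew_zero hX (fun i => P0 (g i)) hdetM fun i j hij => ?_
      have h5 := h3 i j hij
      rw [hX' _ ((hsing _).2 (hgM j).1), hP', Function.update_of_ne (hgM i).2,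
        Function.update_of_ne (hgM j).2] at h5
      exact h5
    funext w k
    by_cases hw : ({w} : Finset V) ∈ S
    · rw [hX' w hw, hX0, Matrix.zero_mulVec]
      rfl
    · rw [h4 w k hw]
      rfl)
  -- rigidity at `P_t`
  set Pt := Function.update P0 c (P0 a + t • q0) with hPt
  have hPtg : ∀ i, Pt (g i) = P0 (g i) := fun i => by rw [hPt, Function.update_of_ne (hgM i).2]
  have hRt : Rigid S Pt := by
    intro z hz
    obtain ⟨X, hX, hX'⟩ := gauge (fun i => P0 (g i)) hdetM (fun j => z (g j))
    refine ⟨X, hX, ?_⟩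
    have hw : ∀ u v, ({u, v} : Finset V) ∈ S →
        ∑ k, ((z u k - X.mulVec (Pt u) k) * Pt v k + (z v k - X.mulVec (Pt v) k) * Pt u k) = 0 := by
      intro u v huv
      have h1 := hz u v huv
      have h2 := skew_motion hX (Pt u) (Pt v)
      rw [← sub_eq_zero_of_eq (h1.trans h2.symm), ← Finset.sum_sub_distrib]
      exact Finset.sum_congr rfl fun k _ => by ring
    have h0 := hsys (fun v k => if ({v} : Finset V) ∈ S then z v k - X.mulVec (Pt v) k else 0)
      (by
        intro u v _ _ huv
        have hu := hS _ huv {u} (by simp)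
        have hv := hS _ huv {v} (by simp)
        simp only [if_pos hu, if_pos hv]
        exact hw u v huv)
      (by
        have ha : ({a} : Finset V) ∈ S := (hsing a).2 (hr _ _ h)
        have hc : ({c} : Finset V) ∈ S := (hsing c).2 (hr _ _ (hs _ _ h))
        simp only [if_pos ha, if_pos hc]
        have e1 := hw a c ((hpair a c).2 h)
        have e2 := hw a a (by rw [Finset.pair_eq_singleton]; exact ha)
        have e3 := hw c c (by rw [Finset.pair_eq_singleton]; exact hc)
        have hPa : Pt a = P0 a := by rw [hPt, Function.update_of_ne hac]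
        have hPc : ∀ k, Pt c k = P0 a k + t * q0 k := fun k => by
          rw [hPt, Function.update_self]; rfl
        have e4 : t * (∑ k, ((z c k - X.mulVec (Pt c) k) * q0 k + (z a k - X.mulVec (Pt a) k) * -q0 k)) = 0 := by
          have e5 : t * (∑ k, ((z c k - X.mulVec (Pt c) k) * q0 k +
              (z a k - X.mulVec (Pt a) k) * -q0 k)) =
              (1 / 2) * (∑ k, ((z c k - X.mulVec (Pt c) k) * Pt c k + (z c k - X.mulVec (Pt c) k) * Pt c k)) +
              (1 / 2) * (∑ k, ((z a k - X.mulVec (Pt a) k) * Pt a k + (z a k - X.mulVec (Pt a) k) * Pt a k)) -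
              ∑ k, ((z a k - X.mulVec (Pt a) k) * Pt c k + (z c k - X.mulVec (Pt c) k) * Pt a k) := by
            rw [Finset.mul_sum, Finset.mul_sum, Finset.mul_sum, ← Finset.sum_add_distrib,
              ← Finset.sum_sub_distrib]
            refine Finset.sum_congr rfl fun k _ => ?_
            rw [hPa]
            generalize X.mulVec (Pt c) k = A
            generalize X.mulVec (P0 a) k = B
            rw [hPc]
            ring
          rw [e5, e1, e2, e3]
          ring
        exact (mul_eq_zero.1 e4).resolve_left ht)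
      (by
        intro i j hij
        simp only [if_pos ((hsing (g j)).2 (hgM j).1)]
        rw [hPtg, hPtg]
        exact hX' i j hij)
      (by
        intro w k hw
        simp only [if_neg hw])
    intro v hv
    funext k
    have h1 := congrFun (congrFun h0 v) k
    simp only [if_pos hv] at h1
    exact sub_eq_zero.1 h1
  have hfin := Pool.Agent.H404.Rg.W2.gen_of_rigid S (fun u v huv => hS _ huv {u} (by simp)) Pt hRt g
    (fun i => (hsing _).2 (hgM i).1) (by
      simp only [hPtg]
      exact hdetM)
  refine hfin.mono fun c1 hc z hz => ?_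
  obtain ⟨X, hX, hX'⟩ := hc z fun u v huv => hz u v ((hpair u v).1 huv)
  exact ⟨X, hX, fun v hv => hX' v ((hsing v).2 hv)⟩

end Pool.Agent.H128.Rg
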