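import Pool.Agent.H128.Rg.Defs

set_option autoImplicit false
set_option linter.unusedSectionVars false

/-! The cone lemma (project Rg of helper128). -/

namespace Pool.Agent.H229.Rg

open Pool.Agent.H128.Rg

variable {V : Type} [Fintype V] [DecidableEq V] {K : Type} [Field K] [CharZero K] {m n d : ℕ}

lemma skew_pair {k : ℕ} (X : Matrix (Fin k) (Fin k) K) (hX : X.transpose = -X) (x y : Fin k → K) :
    ∑ i, (X.mulVec x i * y i + X.mulVec y i * x i) = 0 := by
  have h : dotProduct (X.mulVec x) y = - dotProduct (X.mulVec y) x := by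
    rw [dotProduct_comm, Matrix.dotProduct_mulVec, ← Matrix.mulVec_transpose, hX, Matrix.neg_mulVec,
      neg_dotProduct]
  rw [Finset.sum_add_distrib]
  have h1 : ∑ i, X.mulVec x i * y i = dotProduct (X.mulVec x) y := rfl
  have h2 : ∑ i, X.mulVec y i * x i = dotProduct (X.mulVec y) x := rfl
  rw [h1, h2, h]
  ring

/-- the matrix `(z e^T - e z^T) / c` -/
def X0 (c : K) (z : Fin (m + 1) → K) : Matrix (Fin (m + 1)) (Fin (m + 1)) K :=
  Matrix.of fun i j => c⁻¹ * (z i * (if j = Fin.last m then 1 else 0) -
    (if i = Fin.last m then 1 else 0) * z j)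

lemma X0_skew (c : K) (z : Fin (m + 1) → K) : (X0 c z).transpose = - X0 c z := by
  ext i j
  simp only [X0, Matrix.transpose_apply, Matrix.of_apply, Matrix.neg_apply]
  ring

lemma X0_mulVec (c : K) (z x : Fin (m + 1) → K) (i : Fin (m + 1)) :
    (X0 c z).mulVec x i = c⁻¹ * (z i * x (Fin.last m) -
      (if i = Fin.last m then 1 else 0) * ∑ j, z j * x j) := by
  have h : (X0 c z).mulVec x i = ∑ j, (X0 c z) i j * x j := rfl
  rw [h, Finset.mul_sum, mul_sub, Finset.mul_sum]
  have h2 : ∀ j, (X0 c z) i j * x j = c⁻¹ * (z i * (if j = Fin.last m then x j else 0)) -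
      c⁻¹ * ((if i = Fin.last m then 1 else 0) * (z j * x j)) := by
    intro j
    simp only [X0, Matrix.of_apply]
    by_cases hj : j = Fin.last m
    · simp only [hj, if_true]
      ring
    · simp only [hj, if_false]
      ring
  rw [Finset.sum_congr rfl fun j _ => h2 j, Finset.sum_sub_distrib, ← Finset.mul_sum,
    ← Finset.mul_sum]
  congr 1
  simp

/-- the matrix `M x = c x - x_last t` -/
def MM (c : K) (t : Fin m → K) : Matrix (Fin m) (Fin (m + 1)) K :=
  Matrix.of fun i j => c * (if j = i.castSucc then 1 else 0) - (if j = Fin.last m then 1 else 0) * t i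

lemma MM_mulVec (c : K) (t : Fin m → K) (x : Fin (m + 1) → K) (i : Fin m) :
    (MM c t).mulVec x i = c * x i.castSucc - x (Fin.last m) * t i := by
  have h : (MM c t).mulVec x i = ∑ j, (MM c t) i j * x j := rfl
  have h2 : ∀ j, (MM c t) i j * x j = c * (if j = i.castSucc then x j else 0) -
      (if j = Fin.last m then x j else 0) * t i := by
    intro j
    simp only [MM, Matrix.of_apply]
    split_ifs <;> ring
  rw [h, Finset.sum_congr rfl fun j _ => h2 j, Finset.sum_sub_distrib, ← Finset.mul_sum,
    ← Finset.sum_mul]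
  simp

lemma MT_castSucc (c : K) (t y : Fin m → K) (i : Fin m) :
    (MM c t).transpose.mulVec y i.castSucc = c * y i := by
  have h : (MM c t).transpose.mulVec y i.castSucc = ∑ k, (MM c t) k i.castSucc * y k := rfl
  have h2 : ∀ k, (MM c t) k i.castSucc * y k = c * (if i = k then y k else 0) := by
    intro k
    simp only [MM, Matrix.of_apply, Fin.castSucc_inj, if_neg (Fin.castSucc_ne_last i)]
    split_ifs <;> ring
  rw [h, Finset.sum_congr rfl fun k _ => h2 k, ← Finset.mul_sum]
  simp

lemma MT_last (c : K) (t y : Fin m → K) :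
    (MM c t).transpose.mulVec y (Fin.last m) = - ∑ k, y k * t k := by
  have h : (MM c t).transpose.mulVec y (Fin.last m) = ∑ k, (MM c t) k (Fin.last m) * y k := rfl
  have h2 : ∀ k, (MM c t) k (Fin.last m) * y k = - (y k * t k) := by
    intro k
    simp only [MM, Matrix.of_apply, if_neg (Fin.castSucc_ne_last k).symm, if_true]
    ring
  rw [h, Finset.sum_congr rfl fun k _ => h2 k, Finset.sum_neg_distrib]

/-- W3. -/
theorem cone (L S : Finset (Finset V)) (v : V) (hvS : ({v} : Finset V) ∈ S)
    (h1 : ∀ u w, ({u, w} : Finset V) ∈ L → ({u, w} : Finset V) ∈ S)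
    (h2 : ∀ u, ({u} : Finset V) ∈ L → ({v, u} : Finset V) ∈ S)
    (h3 : ∀ u w, ({u, w} : Finset V) ∈ L → ({u} : Finset V) ∈ L)
    (P : V → Fin (m + 1) → K) (hv : P v (Fin.last m) ≠ 0)
    (hL : Rigid L (fun u (i : Fin m) => P v (Fin.last m) * P u i.castSucc - P u (Fin.last m) * P v i.castSucc))
    (z : V → Fin (m + 1) → K) (hz : Motion S P z) :
    ∃ X : Matrix (Fin (m + 1)) (Fin (m + 1)) K, X.transpose = -X ∧
      ∀ u, (({u} : Finset V) ∈ L ∨ u = v) → z u = X.mulVec (P u) := by
  -- `z v` is orthogonal to `P v`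
  have hzv : ∑ i, z v i * P v i = 0 := by
    have h := hz v v (by simpa using hvS)
    rw [Finset.sum_add_distrib] at h
    have h' : (2 : K) * ∑ i, z v i * P v i = 0 := by linear_combination h
    exact (mul_eq_zero.1 h').resolve_left two_ne_zero
  set A := X0 (P v (Fin.last m)) (z v) with hA
  have hAskew : A.transpose = -A := X0_skew _ _
  have hAv : A.mulVec (P v) = z v := by
    funext i
    rw [hA, X0_mulVec, hzv, mul_zero, sub_zero]
    field_simp
  -- the corrected motion
  set z' : V → Fin (m + 1) → K := fun u i => z u i - A.mulVec (P u) i with hz'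
  have hz'S : ∀ u w, ({u, w} : Finset V) ∈ S → ∑ i, z' u i * P w i + ∑ i, z' w i * P u i = 0 := by
    intro u w huw
    have e1 := hz u w huw
    have e2 := skew_pair A hAskew (P u) (P w)
    rw [← Finset.sum_add_distrib]
    have e3 : ∀ i, z' u i * P w i + z' w i * P u i = (z u i * P w i + z w i * P u i) -
        (A.mulVec (P u) i * P w i + A.mulVec (P w) i * P u i) := by
      intro i
      simp only [hz']
      ring
    rw [Finset.sum_congr rfl fun i _ => e3 i, Finset.sum_sub_distrib, e1, e2, sub_zero]
  have hz'v : ∀ i, z' v i = 0 := by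
    intro i
    simp only [hz', hAv, sub_self]
  have hlast : ∀ u, ({u} : Finset V) ∈ L → P v (Fin.last m) * z' u (Fin.last m) =
      - ∑ i : Fin m, z' u i.castSucc * P v i.castSucc := by
    intro u hu
    have e := hz'S v u (h2 u hu)
    have e0 : ∑ i, z' v i * P u i = 0 := by
      apply Finset.sum_eq_zero
      intro i _
      rw [hz'v, zero_mul]
    rw [e0, zero_add, Fin.sum_univ_castSucc] at e
    linear_combination e
  -- the pairing
  have hpair : ∀ u w, ({u} : Finset V) ∈ L → P v (Fin.last m) * ∑ i, z' u i * P w i =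
      ∑ i : Fin m, z' u i.castSucc *
        (P v (Fin.last m) * P w i.castSucc - P w (Fin.last m) * P v i.castSucc) := by
    intro u w hu
    rw [Fin.sum_univ_castSucc, mul_add, Finset.mul_sum]
    have e := hlast u hu
    have e4 : ∀ i : Fin m, z' u i.castSucc *
        (P v (Fin.last m) * P w i.castSucc - P w (Fin.last m) * P v i.castSucc) =
        P v (Fin.last m) * (z' u i.castSucc * P w i.castSucc) -
          P w (Fin.last m) * (z' u i.castSucc * P v i.castSucc) := by
      intro i
      ring
    rw [Finset.sum_congr rfl fun i _ => e4 i, Finset.sum_sub_distrib, ← Finset.mul_sum (f := fun i : Fin m => z' u i.castSucc * P v i.castSucc)]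
    linear_combination P w (Fin.last m) * e
  have hM : Motion L (fun u (i : Fin m) => P v (Fin.last m) * P u i.castSucc -
      P u (Fin.last m) * P v i.castSucc) (fun u i => z' u i.castSucc) := by
    intro u w huw
    have hu : ({u} : Finset V) ∈ L := h3 u w huw
    have hw : ({w} : Finset V) ∈ L := h3 w u (by rw [Finset.pair_comm]; exact huw)
    have e := hz'S u w (h1 u w huw)
    rw [Finset.sum_add_distrib, ← hpair u w hu, ← hpair w u hw, ← mul_add, e, mul_zero]
  obtain ⟨Y, hY, hYu⟩ := hL _ hM
  set M := MM (P v (Fin.last m)) (fun i : Fin m => P v i.castSucc) with hMdef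
  set B := (P v (Fin.last m))⁻¹ • (M.transpose * Y * M) with hB
  have hBskew : B.transpose = -B := by
    rw [hB, Matrix.transpose_smul, Matrix.transpose_mul, Matrix.transpose_mul,
      Matrix.transpose_transpose, hY, ← smul_neg, Matrix.neg_mul, Matrix.mul_neg, Matrix.mul_assoc]
  have hBx : ∀ x, B.mulVec x = (P v (Fin.last m))⁻¹ • M.transpose.mulVec (Y.mulVec (M.mulVec x)) := by
    intro x
    rw [hB, Matrix.smul_mulVec, ← Matrix.mulVec_mulVec, ← Matrix.mulVec_mulVec]
  have hMP : ∀ u, M.mulVec (P u) = fun i : Fin m => P v (Fin.last m) * P u i.castSucc -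
      P u (Fin.last m) * P v i.castSucc := by
    intro u
    funext i
    rw [hMdef, MM_mulVec]
  refine ⟨A + B, ?_, ?_⟩
  · rw [Matrix.transpose_add, hAskew, hBskew, neg_add]
  · intro u hu
    rw [Matrix.add_mulVec]
    by_cases huv : u = v
    · subst huv
      have e0 : M.mulVec (P u) = 0 := by
        rw [hMP]
        funext i
        simp
      rw [hAv, hBx, e0, Matrix.mulVec_zero, Matrix.mulVec_zero, smul_zero, add_zero]
    · have huL : ({u} : Finset V) ∈ L := hu.resolve_right huv
      have e1 : z' u = B.mulVec (P u) := by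
        have e2 := hYu u huL
        rw [hBx, hMP, ← e2]
        funext i
        rw [Pi.smul_apply, smul_eq_mul]
        refine Fin.lastCases ?_ (fun k => ?_) i
        · rw [hMdef, MT_last, ← hlast u huL, inv_mul_cancel_left₀ hv]
        · rw [hMdef, MT_castSucc, inv_mul_cancel_left₀ hv]
      funext i
      have e3 := congrFun e1 i
      rw [Pi.add_apply, ← e3]
      simp only [hz']
      ring

end Pool.Agent.H229.Rg
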