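import Pool.Agent.H128.Rg.Basic
import Pool.Agent.H128.Rg.W3

set_option autoImplicit false
set_option linter.unusedSectionVars false

/-! Rigidity of vector configurations: gluing stars. -/

namespace Pool.Agent.H128.Rg

open Pool.Agent.H229.Rg

variable {V : Type} [Fintype V] [DecidableEq V] {K : Type} [Field K] [CharZero K] {m n : ℕ}

lemma eval_aeval {σ τ : Type} (g : σ → MvPolynomial τ K) (f : MvPolynomial σ K) (c : τ → K) :
    MvPolynomial.eval c (MvPolynomial.aeval g f) = MvPolynomial.eval (fun q => MvPolynomial.eval c (g q)) f := by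
  induction f using MvPolynomial.induction_on with
  | C a => simp
  | add p q hp hq => rw [map_add, map_add, map_add, hp, hq]
  | mul_X p i hp => rw [map_mul, map_mul, map_mul, hp, MvPolynomial.aeval_X, MvPolynomial.eval_X]

lemma gen_cone (S : Finset (Finset V)) (hS : Down S) (v : V) (hv : ({v} : Finset V) ∈ S)
    (h : GenRigid K (link S v) m) :
    Gen (K := K) fun c : Fin (m + 1) × V → K => ∀ z, Motion S (fun v i => c (i, v)) z →
      ∃ X : Matrix (Fin (m + 1)) (Fin (m + 1)) K, X.transpose = -X ∧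
        ∀ u, ({v, u} : Finset V) ∈ S → z u = X.mulVec (fun i => c (i, u)) := by
  obtain ⟨f, hf, h⟩ := h
  obtain ⟨Q, hQ⟩ : ∃ Q : Fin m × V → K, MvPolynomial.eval Q f ≠ 0 :=
    Gen.exists ⟨f, hf, fun c hc => hc⟩
  obtain ⟨g, hg⟩ : ∃ g : Fin m × V → MvPolynomial (Fin (m + 1) × V) K, ∀ q, g q =
      if q.2 = v then MvPolynomial.C (Q q) else
        MvPolynomial.X (Fin.last m, v) * MvPolynomial.X (q.1.castSucc, q.2) -
          MvPolynomial.X (Fin.last m, q.2) * MvPolynomial.X (q.1.castSucc, v) := ⟨_, fun _ => rfl⟩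
  refine ⟨MvPolynomial.aeval g f * MvPolynomial.X (Fin.last m, v), ?_, ?_⟩
  · intro h0
    have h1 := congrArg (MvPolynomial.eval fun q : Fin (m + 1) × V =>
      Fin.lastCases (motive := fun _ => K) (if q.2 = v then 1 else 0)
        (fun i => if q.2 = v then 0 else Q (i, q.2)) q.1) h0
    rw [map_mul, map_zero, eval_aeval, MvPolynomial.eval_X] at h1
    rcases mul_eq_zero.1 h1 with h2 | h2
    · refine hQ ?_
      rw [← h2]
      congr 2
      funext q
      rw [hg]
      by_cases hq : q.2 = v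
      · rw [if_pos hq, MvPolynomial.eval_C]
      · rw [if_neg hq]
        simp [hq]
    · simp at h2
  · intro c hc z hz
    rw [map_mul, MvPolynomial.eval_X, eval_aeval] at hc
    have h1 := h _ (left_ne_zero_of_mul hc)
    have hcv : c (Fin.last m, v) ≠ 0 := right_ne_zero_of_mul hc
    have hL : ∀ σ, σ ∈ link S v ↔ σ ∈ S ∧ v ∉ σ ∧ insert v σ ∈ S := fun σ => by
      rw [link, Finset.mem_filter]
    have hd : ∀ u w, ({u, w} : Finset V) ∈ link S v → ({u} : Finset V) ∈ link S v := by
      intro u w huw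
      rw [hL] at huw ⊢
      refine ⟨hS _ huw.1 _ (by simp), fun h => huw.2.1 ?_, hS _ huw.2.2 _ ?_⟩
      · rw [Finset.mem_singleton] at h
        rw [h]
        simp
      · intro x hx
        simp only [Finset.mem_insert, Finset.mem_singleton] at hx ⊢
        tauto
    have h2 : Rigid (link S v) (fun u (i : Fin m) => c (Fin.last m, v) * c (i.castSucc, u) -
        c (Fin.last m, u) * c (i.castSucc, v)) := by
      refine Rigid.congr hd ?_ h1
      intro u hu
      have huv : u ≠ v := by
        rintro rfl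
        exact ((hL _).1 hu).2.1 (Finset.mem_singleton_self u)
      funext i
      show MvPolynomial.eval c (g (i, u)) = _
      rw [hg, if_neg huv]
      simp
    obtain ⟨X, hX, hX'⟩ := cone (link S v) S v hv (fun u w h => ((hL _).1 h).1)
      (fun u h => ((hL _).1 h).2.2) hd (fun u i => c (i, u)) hcv h2 z hz
    refine ⟨X, hX, fun u hu => hX' u ?_⟩
    by_cases huv : u = v
    · exact Or.inr huv
    · refine Or.inl ((hL _).2 ⟨hS _ hu _ (by simp), ?_, hu⟩)
      rw [Finset.mem_singleton]
      exact fun h => huv h.symm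

/-- common vertices of the stars of `a` and `b` -/
def common (S : Finset (Finset V)) (a b : V) : Finset V :=
  Finset.univ.filter fun u => ({a, u} : Finset V) ∈ S ∧ ({b, u} : Finset V) ∈ S

lemma gen_unique (C : Finset V) (hC : m ≤ C.card) :
    Gen (K := K) fun c : Fin m × V → K => ∀ Y : Matrix (Fin m) (Fin m) K,
      (∀ u ∈ C, Y.mulVec (fun i => c (i, u)) = 0) → Y = 0 := by
  obtain ⟨e⟩ := Function.Embedding.nonempty_of_card_le (α := Fin m) (β := C) (by
    rw [Fintype.card_fin, Fintype.card_coe]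
    exact hC)
  refine (gen_det (K := K) (fun i => (e i).1) (fun i j h => e.injective (Subtype.ext h))).mono
    fun c hc Y hY => ?_
  have h1 : Y * (Matrix.of fun i j => c (j, (e i).1)).transpose = 0 := by
    ext i j
    have := congrFun (hY (e j).1 (e j).2) i
    rw [Matrix.mul_apply]
    exact this
  have h2 : Y * (Matrix.of fun i j => c (j, (e i).1)).transpose *
      ((Matrix.of fun i j => c (j, (e i).1)).transpose)⁻¹ =
        0 * ((Matrix.of fun i j => c (j, (e i).1)).transpose)⁻¹ := by rw [h1]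
  rwa [Matrix.mul_assoc, Matrix.mul_nonsing_inv, Matrix.mul_one, Matrix.zero_mul] at h2
  rw [Matrix.det_transpose]
  exact isUnit_iff_ne_zero.2 hc

/-- gluing stars -/
theorem gen_stars (S : Finset (Finset V)) (hS : Down S) (I : Finset V)
    (h : ∀ v ∈ I, GenRigid K (link S v) m) (hIS : ∀ v ∈ I, ({v} : Finset V) ∈ S)
    (hI : ∀ u, ({u} : Finset V) ∈ S → ∃ v ∈ I, ({v, u} : Finset V) ∈ S)
    (hc : ∀ v ∈ I, ∀ w ∈ I, Relation.ReflTransGen (fun a b => b ∈ I ∧ m + 1 ≤ (common S a b).card) v w) :
    GenRigid K S (m + 1) := by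
  have h1 := Gen.all (K := K) I fun v hv => gen_cone S hS v (hIS v hv) (h v hv)
  have h2 : Gen (K := K) fun c : Fin (m + 1) × V → K => ∀ a ∈ I, ∀ b ∈ I, m + 1 ≤ (common S a b).card →
      ∀ Y : Matrix (Fin (m + 1)) (Fin (m + 1)) K,
        (∀ u ∈ common S a b, Y.mulVec (fun i => c (i, u)) = 0) → Y = 0 := by
    refine Gen.all I fun a _ => Gen.all I fun b _ => ?_
    by_cases hab : m + 1 ≤ (common S a b).card
    · exact (gen_unique (common S a b) hab).mono fun c hc _ => hc
    · exact Gen.true fun c h => absurd h hab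
  refine (h1.and h2).mono fun c ⟨hc1, hc2⟩ z hz => ?_
  by_cases hne : I.Nonempty
  · obtain ⟨v0, hv0⟩ := hne
    obtain ⟨X, hX, hX0⟩ := hc1 v0 hv0 z hz
    refine ⟨X, hX, fun u hu => ?_⟩
    obtain ⟨v, hv, hvu⟩ := hI u hu
    have key : ∀ w, Relation.ReflTransGen (fun a b => b ∈ I ∧ m + 1 ≤ (common S a b).card) v0 w →
        w ∈ I ∧ ∀ u, ({w, u} : Finset V) ∈ S → z u = X.mulVec (fun i => c (i, u)) := by
      intro w hw
      induction hw with
      | refl => exact ⟨hv0, hX0⟩
      | tail _ hab ih =>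
        rename_i a b _
        refine ⟨hab.1, ?_⟩
        obtain ⟨X', hX', hX'0⟩ := hc1 b hab.1 z hz
        have h3 : X - X' = 0 := by
          refine hc2 a ih.1 b hab.1 hab.2 _ fun u hu => ?_
          rw [common, Finset.mem_filter] at hu
          rw [Matrix.sub_mulVec, ← ih.2 u hu.2.1, ← hX'0 u hu.2.2, sub_self]
        rw [sub_eq_zero.1 h3]
        exact hX'0
    exact (key v (hc v0 hv0 v hv)).2 u hvu
  · refine ⟨0, by simp, fun u hu => ?_⟩
    obtain ⟨v, hv, -⟩ := hI u hu
    exact absurd ⟨v, hv⟩ hne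

end Pool.Agent.H128.Rg
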